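import Mathlib

/-!
# Free factors
-/

set_option autoImplicit false

namespace Pool.Agent.Lib.MP_f46d86_al



/-- The subgroup `A` of `G` is a free factor: for some subgroup `B` the natural homomorphism
from the free product `A ∗ B` to `G` is bijective. -/
def IsFreeFactor {G : Type*} [Group G] (A : Subgroup G) : Prop :=
  ∃ B : Subgroup G, Function.Bijective (Monoid.Coprod.lift A.subtype B.subtype)

/-- The element `g` lies in a free factor of `G` different from `G`. -/
def InProperFreeFactor {G : Type*} [Group G] (g : G) : Prop :=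
  ∃ A : Subgroup G, IsFreeFactor A ∧ A ≠ ⊤ ∧ g ∈ A

theorem IsFreeFactor.map {G H : Type*} [Group G] [Group H] (e : G ≃* H) {A : Subgroup G}
    (hA : IsFreeFactor A) : IsFreeFactor (A.map e.toMonoidHom) := by
  obtain ⟨B, hB⟩ := hA
  refine ⟨B.map e.toMonoidHom, ?_⟩
  let eA := A.equivMapOfInjective e.toMonoidHom e.injective
  let eB := B.equivMapOfInjective e.toMonoidHom e.injective
  have key : (Monoid.Coprod.lift (A.map e.toMonoidHom).subtype (B.map e.toMonoidHom).subtype).comp
      (MulEquiv.coprodCongr eA eB).toMonoidHom =
      e.toMonoidHom.comp (Monoid.Coprod.lift A.subtype B.subtype) :=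
    Monoid.Coprod.hom_ext rfl rfl
  have h1 : Function.Bijective
      ((Monoid.Coprod.lift (A.map e.toMonoidHom).subtype (B.map e.toMonoidHom).subtype) ∘
      (MulEquiv.coprodCongr eA eB)) := by
    have h2 : ((Monoid.Coprod.lift (A.map e.toMonoidHom).subtype (B.map e.toMonoidHom).subtype) ∘
      (MulEquiv.coprodCongr eA eB)) = e ∘ (Monoid.Coprod.lift A.subtype B.subtype) := by
      funext x
      exact DFunLike.congr_fun key x
    rw [h2]
    exact e.bijective.comp hB
  exact (Function.Bijective.of_comp_iff _ (MulEquiv.coprodCongr eA eB).bijective).mp h1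

theorem InProperFreeFactor.map {G H : Type*} [Group G] [Group H] (e : G ≃* H) {g : G}
    (hg : InProperFreeFactor g) : InProperFreeFactor (e g) := by
  obtain ⟨A, hA, hne, hgA⟩ := hg
  refine ⟨A.map e.toMonoidHom, hA.map e, ?_, Subgroup.mem_map_of_mem _ hgA⟩
  intro h
  apply hne
  rw [eq_top_iff]
  intro x _
  have hx : e x ∈ A.map e.toMonoidHom := by rw [h]; trivial
  obtain ⟨y, hy, hxy⟩ := hx
  rwa [← e.injective hxy]

theorem InProperFreeFactor.of_map {G H : Type*} [Group G] [Group H] (e : G ≃* H) {g : G}
    (hg : InProperFreeFactor (e g)) : InProperFreeFactor g := by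
  have := hg.map e.symm
  rwa [MulEquiv.symm_apply_apply] at this

theorem InProperFreeFactor.conj {G : Type*} [Group G] {g h : G} (hc : IsConj g h)
    (hg : InProperFreeFactor g) : InProperFreeFactor h := by
  obtain ⟨c, hc⟩ := isConj_iff.mp hc
  have := hg.map (MulAut.conj c)
  rwa [MulAut.conj_apply, hc] at this

variable {α : Type*}

/-- The subgroup generated by the free generators different from `a`. -/
abbrev without (a : α) : Subgroup (FreeGroup α) :=
  Subgroup.closure {x | ∃ j, j ≠ a ∧ x = FreeGroup.of j}

theorem isFreeFactor_without (a : α) : IsFreeFactor (without a) := by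
  classical
  refine ⟨Subgroup.closure {FreeGroup.of a}, ?_⟩
  have ha : FreeGroup.of a ∈ Subgroup.closure {FreeGroup.of a} :=
    Subgroup.subset_closure rfl
  have hj : ∀ j, j ≠ a → FreeGroup.of j ∈ without a := fun j hj =>
    Subgroup.subset_closure ⟨j, hj, rfl⟩
  let inv : FreeGroup α →* Monoid.Coprod (without a) (Subgroup.closure {FreeGroup.of a}) :=
    FreeGroup.lift fun j => if h : j = a then Monoid.Coprod.inr ⟨FreeGroup.of a, ha⟩
      else Monoid.Coprod.inl ⟨FreeGroup.of j, hj j h⟩
  have h1 : (Monoid.Coprod.lift (without a).subtype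
      (Subgroup.closure {FreeGroup.of a}).subtype).comp inv = MonoidHom.id _ := by
    apply FreeGroup.ext_hom
    intro j
    by_cases h : j = a
    · subst h; simp [inv]
    · simp [inv, h]
  have h2 : inv.comp (Monoid.Coprod.lift (without a).subtype
      (Subgroup.closure {FreeGroup.of a}).subtype) = MonoidHom.id _ := by
    apply Monoid.Coprod.hom_ext
    · ext ⟨x, hx⟩
      change inv x = Monoid.Coprod.inl ⟨x, hx⟩
      induction hx using Subgroup.closure_induction with
      | mem x hx =>
        obtain ⟨j, hja, rfl⟩ := hx
        simp [inv, hja]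
      | one => rw [map_one]; exact (map_one Monoid.Coprod.inl).symm
      | mul x y hx hy ihx ihy =>
        rw [map_mul, ihx, ihy, ← map_mul]
        rfl
      | inv x hx ih =>
        rw [map_inv, ih, ← map_inv]
        rfl
    · ext ⟨x, hx⟩
      change inv x = Monoid.Coprod.inr ⟨x, hx⟩
      induction hx using Subgroup.closure_induction with
      | mem x hx =>
        rw [Set.mem_singleton_iff] at hx
        subst hx
        simp [inv]
      | one => rw [map_one]; exact (map_one Monoid.Coprod.inr).symm
      | mul x y hx hy ihx ihy =>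
        rw [map_mul, ihx, ihy, ← map_mul]
        rfl
      | inv x hx ih =>
        rw [map_inv, ih, ← map_inv]
        rfl
  constructor
  · intro x y hxy
    have := congrArg inv hxy
    rw [← MonoidHom.comp_apply, ← MonoidHom.comp_apply, h2] at this
    exact this
  · intro x
    exact ⟨inv x, DFunLike.congr_fun h1 x⟩

theorem without_ne_top (a : α) : without a ≠ (⊤ : Subgroup (FreeGroup α)) := by
  classical
  intro h
  let f : FreeGroup α →* Multiplicative ℤ :=
    FreeGroup.lift fun j => if j = a then Multiplicative.ofAdd 1 else 1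
  have hle : without a ≤ f.ker := by
    rw [without, Subgroup.closure_le]
    rintro x ⟨j, hj, rfl⟩
    change f (FreeGroup.of j) = 1
    simp [f, hj]
  have ha : FreeGroup.of a ∈ f.ker := hle (by rw [h]; trivial)
  have : f (FreeGroup.of a) = 1 := ha
  simp [f] at this

end Pool.Agent.Lib.MP_f46d86_al
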