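import Mathlib
import Pool.Agent.Lib.MP_f46d86_al.FreeFactor

/-!
# Whitehead automorphisms shorten words
-/

set_option autoImplicit false

namespace Pool.Agent.Lib.MP_f46d86_al

variable {α : Type*}

/-- The inverse letter. -/
def linv (y : α × Bool) : α × Bool := (y.1, !y.2)

/-- The value of a letter in the free group. -/
def lval (y : α × Bool) : FreeGroup α := FreeGroup.mk [y]

theorem linv_linv (y : α × Bool) : linv (linv y) = y := by
  simp [linv]

theorem linv_ne (y : α × Bool) : linv y ≠ y := by
  intro h
  have := congrArg Prod.snd h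
  simp [linv] at this

theorem lval_linv (y : α × Bool) : lval (linv y) = (lval y)⁻¹ := by
  simp [linv, lval, FreeGroup.inv_mk, FreeGroup.invRev]

theorem lval_true (j : α) : lval (j, true) = FreeGroup.of j := rfl

theorem lval_false (j : α) : lval (j, false) = (FreeGroup.of j)⁻¹ := by
  rw [← lval_true, ← lval_linv]; rfl

section Whitehead

open Classical in
/-- The letter `a` if `y ∈ P`, and `1` otherwise. -/
noncomputable def cE (P : Set (α × Bool)) (a y : α × Bool) : FreeGroup α :=
  if y ∈ P then lval a else 1

/-- The Whitehead endomorphism which cuts off the directions in `P` and glues them at the other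
end of the edge `a`. -/
noncomputable def whHom (P : Set (α × Bool)) (a : α × Bool) : FreeGroup α →* FreeGroup α :=
  FreeGroup.lift fun j => (cE P a (j, true))⁻¹ * FreeGroup.of j * cE P a (j, false)

/-- The inverse of the Whitehead endomorphism. -/
noncomputable def whInv (P : Set (α × Bool)) (a : α × Bool) : FreeGroup α →* FreeGroup α :=
  FreeGroup.lift fun j => cE P a (j, true) * FreeGroup.of j * (cE P a (j, false))⁻¹

theorem whHom_lval (P : Set (α × Bool)) (a y : α × Bool) :
    whHom P a (lval y) = (cE P a y)⁻¹ * lval y * cE P a (linv y) := by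
  obtain ⟨j, s⟩ := y
  cases s
  · rw [lval_false, map_inv]
    simp [whHom, linv, mul_assoc]
  · rw [lval_true]
    simp [whHom, linv]

theorem whInv_lval (P : Set (α × Bool)) (a y : α × Bool) :
    whInv P a (lval y) = cE P a y * lval y * (cE P a (linv y))⁻¹ := by
  obtain ⟨j, s⟩ := y
  cases s
  · rw [lval_false, map_inv]
    simp [whInv, linv, mul_assoc]
  · rw [lval_true]
    simp [whInv, linv]

variable {P : Set (α × Bool)} {a : α × Bool}

theorem whHom_a (ha : a ∉ P) (ha' : linv a ∉ P) : whHom P a (lval a) = lval a := by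
  rw [whHom_lval]; simp [cE, ha, ha']

theorem whInv_a (ha : a ∉ P) (ha' : linv a ∉ P) : whInv P a (lval a) = lval a := by
  rw [whInv_lval]; simp [cE, ha, ha']

theorem whHom_cE (ha : a ∉ P) (ha' : linv a ∉ P) (y : α × Bool) :
    whHom P a (cE P a y) = cE P a y := by
  unfold cE
  split_ifs
  · exact whHom_a ha ha'
  · exact map_one _

theorem whInv_cE (ha : a ∉ P) (ha' : linv a ∉ P) (y : α × Bool) :
    whInv P a (cE P a y) = cE P a y := by
  unfold cE
  split_ifs
  · exact whInv_a ha ha'
  · exact map_one _

/-- The Whitehead automorphism. -/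
noncomputable def whEquiv (ha : a ∉ P) (ha' : linv a ∉ P) : FreeGroup α ≃* FreeGroup α :=
  MonoidHom.toMulEquiv (whHom P a) (whInv P a)
    (by
      apply FreeGroup.ext_hom
      intro j
      rw [MonoidHom.comp_apply, ← lval_true, whHom_lval, map_mul, map_mul, map_inv, whInv_cE ha ha',
        whInv_cE ha ha', whInv_lval]
      simp [mul_assoc])
    (by
      apply FreeGroup.ext_hom
      intro j
      rw [MonoidHom.comp_apply, ← lval_true, whInv_lval, map_mul, map_mul, map_inv, whHom_cE ha ha',
        whHom_cE ha ha', whHom_lval]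
      simp [mul_assoc])

theorem whEquiv_apply (ha : a ∉ P) (ha' : linv a ∉ P) (x : FreeGroup α) :
    whEquiv ha ha' x = whHom P a x := rfl

open Classical in
/-- The correction at the vertex between the letters `y i` and `y (i + 1)`. -/
noncomputable def nu (P : Set (α × Bool)) (a : α × Bool) (y : ℕ → α × Bool) (i : ℕ) :
    FreeGroup α :=
  if linv (y i) ∈ P ∨ y (i + 1) ∈ P then lval a else 1

/-- The modified letters. -/
noncomputable def zz (P : Set (α × Bool)) (a : α × Bool) (y : ℕ → α × Bool) (i : ℕ) :
    FreeGroup α :=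
  (nu P a y i)⁻¹ * lval (y (i + 1)) * nu P a y (i + 1)

theorem zz_telescope (y : ℕ → α × Bool) (n : ℕ) :
    ((List.range n).map (zz P a y)).prod =
      (nu P a y 0)⁻¹ * ((List.range n).map (fun i => lval (y (i + 1)))).prod * nu P a y n := by
  induction n with
  | zero => simp
  | succ n ih =>
    rw [List.range_succ, List.map_append, List.prod_append, ih, List.map_append, List.prod_append]
    simp [zz, mul_assoc]

theorem shift_telescope (y : ℕ → α × Bool) (n : ℕ) :
    ((List.range n).map (fun i => lval (y (i + 1)))).prod =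
      (lval (y 0))⁻¹ * ((List.range n).map (fun i => lval (y i))).prod * lval (y n) := by
  induction n with
  | zero => simp
  | succ n ih =>
    rw [List.range_succ, List.map_append, List.prod_append, ih, List.map_append, List.prod_append]
    simp [mul_assoc]

variable {y : ℕ → α × Bool}

theorem zz_eq_one_of_left (ha' : linv a ∉ P)
    (h2 : ∀ i, y (i + 1) ∈ P → linv (y i) ∉ P → linv (y i) = a) (i : ℕ)
    (hA : linv (y i) ∈ P) (hT : y (i + 1) = a) : zz P a y i = 1 := by
  have hB : y (i + 1 + 1) ∉ P := by
    intro hB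
    have h := h2 (i + 1) hB (by rw [hT]; exact ha')
    rw [hT] at h
    exact linv_ne a h
  have e1 : nu P a y i = lval a := by simp [nu, hA]
  have e2 : nu P a y (i + 1) = 1 := by
    simp only [nu]
    rw [if_neg]
    rintro (h | h)
    · rw [hT] at h; exact ha' h
    · exact hB h
  rw [zz, e1, e2, hT]; simp

theorem zz_eq_one_of_right (ha' : linv a ∉ P)
    (h1 : ∀ i, linv (y i) ∈ P → y (i + 1) ∉ P → y (i + 1) = a) (i : ℕ)
    (hB : y (i + 1 + 1) ∈ P) (hT : linv (y (i + 1)) = a) : zz P a y i = 1 := by
  have hy : y (i + 1) = linv a := by rw [← hT, linv_linv]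
  have hA : linv (y i) ∉ P := by
    intro hA
    have h := h1 i hA (by rw [hy]; exact ha')
    rw [hy] at h
    exact linv_ne a h
  have e1 : nu P a y i = 1 := by
    simp only [nu]
    rw [if_neg]
    rintro (h | h)
    · exact hA h
    · rw [hy] at h; exact ha' h
  have e2 : nu P a y (i + 1) = lval a := by simp [nu, hB]
  rw [zz, e1, e2, hy, lval_linv]; simp

theorem zz_cases (ha' : linv a ∉ P)
    (h1 : ∀ i, linv (y i) ∈ P → y (i + 1) ∉ P → y (i + 1) = a)
    (h2 : ∀ i, y (i + 1) ∈ P → linv (y i) ∉ P → linv (y i) = a) (i : ℕ) :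
    zz P a y i = 1 ∨ zz P a y i = whHom P a (lval (y (i + 1))) := by
  by_cases c1 : linv (y i) ∈ P ∧ y (i + 1) ∉ P
  · left
    exact zz_eq_one_of_left ha' h2 i c1.1 (h1 i c1.1 c1.2)
  by_cases c2 : y (i + 1 + 1) ∈ P ∧ linv (y (i + 1)) ∉ P
  · left
    exact zz_eq_one_of_right ha' h1 i c2.1 (h2 (i + 1) c2.1 c2.2)
  right
  have e1 : nu P a y i = cE P a (y (i + 1)) := by
    simp only [nu, cE]
    congr 1
    apply propext
    tauto
  have e2 : nu P a y (i + 1) = cE P a (linv (y (i + 1))) := by
    simp only [nu, cE]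
    congr 1
    apply propext
    tauto
  rw [zz, e1, e2, whHom_lval]

theorem list_collect (z : ℕ → FreeGroup α) (ψ : FreeGroup α →* FreeGroup α) (t : ℕ → α × Bool)
    (l : List ℕ) (hz : ∀ i ∈ l, z i = 1 ∨ z i = ψ (lval (t i))) :
    ∃ w : List (α × Bool), w.length ≤ l.length ∧ (l.map z).prod = ψ (FreeGroup.mk w) ∧
      ((∃ i ∈ l, z i = 1) → w.length < l.length) := by
  induction l with
  | nil => exact ⟨[], le_rfl, by simp [← FreeGroup.one_eq_mk], by simp⟩
  | cons i l ih =>
    obtain ⟨w, hw1, hw2, hw3⟩ := ih fun j hj => hz j (List.mem_cons_of_mem _ hj)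
    by_cases h : z i = 1
    · refine ⟨w, ?_, ?_, ?_⟩
      · simp only [List.length_cons]; omega
      · simp [h, hw2]
      · intro _; simp only [List.length_cons]; omega
    · have hi := (hz i (List.mem_cons_self ..)).resolve_left h
      refine ⟨t i :: w, ?_, ?_, ?_⟩
      · simp only [List.length_cons]; omega
      · rw [List.map_cons, List.prod_cons, hi, hw2, ← map_mul]
        rfl
      · rintro ⟨j, hj, hj1⟩
        rcases List.mem_cons.mp hj with rfl | hj
        · exact absurd hj1 h
        · have := hw3 ⟨j, hj, hj1⟩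
          simp only [List.length_cons]; omega

/-- **Shortening lemma.** If the turns of a periodic word `y` of period `L` between `P` and its
complement all involve the direction `a`, and there is such a turn, then some automorphism makes
the cyclic word shorter. -/
theorem shorten (L : ℕ) (hL : 0 < L) (hper : ∀ i, y (i + L) = y i)
    (ha : a ∉ P) (ha' : linv a ∉ P)
    (h1 : ∀ i, linv (y i) ∈ P → y (i + 1) ∉ P → y (i + 1) = a)
    (h2 : ∀ i, y (i + 1) ∈ P → linv (y i) ∉ P → linv (y i) = a)
    (hmix : ∃ i, ¬ (linv (y i) ∈ P ↔ y (i + 1) ∈ P)) :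
    ∃ (ψ : FreeGroup α ≃* FreeGroup α) (w : List (α × Bool)), w.length < L ∧
      IsConj (((List.range L).map (fun i => lval (y i))).prod) (ψ (FreeGroup.mk w)) := by
  have hnuper : ∀ i, nu P a y (i + L) = nu P a y i := by
    intro i
    have e : y (i + L + 1) = y (i + 1) := by
      rw [show i + L + 1 = i + 1 + L by ring, hper]
    unfold nu
    rw [hper i, e]
  have hzper : ∀ i, zz P a y (i + L) = zz P a y i := by
    intro i
    have e : y (i + L + 1) = y (i + 1) := by
      rw [show i + L + 1 = i + 1 + L by ring, hper]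
    have e' : nu P a y (i + L + 1) = nu P a y (i + 1) := by
      rw [show i + L + 1 = i + 1 + L by ring, hnuper]
    simp only [zz, hnuper, e, e']
  have hone : ∃ i, zz P a y i = 1 := by
    obtain ⟨i, hi⟩ := hmix
    by_cases hA : linv (y i) ∈ P
    · have hT : y (i + 1) ∉ P := fun hT => hi (by tauto)
      exact ⟨i, zz_eq_one_of_left ha' h2 i hA (h1 i hA hT)⟩
    · have hT : y (i + 1) ∈ P := by
        by_contra hT; exact hi (by tauto)
      refine ⟨i + L - 1, ?_⟩
      have e1 : i + L - 1 + 1 = i + L := by omega
      apply zz_eq_one_of_right ha' h1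
      · rw [e1, show i + L + 1 = i + 1 + L by ring, hper]; exact hT
      · rw [e1, hper]; exact h2 i hT hA
  have hone' : ∃ i ∈ List.range L, zz P a y i = 1 := by
    obtain ⟨i, hi⟩ := hone
    refine ⟨i % L, List.mem_range.mpr (Nat.mod_lt _ hL), ?_⟩
    have hper' : ∀ k j, zz P a y (j + k * L) = zz P a y j := by
      intro k
      induction k with
      | zero => intro j; simp
      | succ k ih => intro j; rw [Nat.succ_mul, ← add_assoc, hzper, ih]
    have := hper' (i / L) (i % L)
    rw [Nat.mod_add_div'] at this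
    rw [← this, hi]
  obtain ⟨w, -, hw2, hw3⟩ := list_collect (zz P a y) (whHom P a) (fun i => y (i + 1))
    (List.range L) (fun i _ => zz_cases ha' h1 h2 i)
  refine ⟨whEquiv ha ha', w, ?_, ?_⟩
  · have := hw3 hone'
    rwa [List.length_range] at this
  · rw [whEquiv_apply, ← hw2, zz_telescope, shift_telescope]
    have e1 : nu P a y L = nu P a y 0 := by
      have := hnuper 0; rwa [zero_add] at this
    have e2 : y L = y 0 := by
      have := hper 0; rwa [zero_add] at this
    rw [e1, e2]
    rw [isConj_iff]
    exact ⟨(nu P a y 0)⁻¹ * (lval (y 0))⁻¹, by group⟩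

end Whitehead

end Pool.Agent.Lib.MP_f46d86_al
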