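import Mathlib
import Pool.Agent.Lib.MP_f46d86_al.Shorten

/-!
# Functions with finite coboundary on a free group, and cut vertices of the Whitehead graph
-/

set_option autoImplicit false

namespace Pool.Agent.Lib.MP_f46d86_al

variable {α : Type*} {κ : Type*}

/-- The letters `y i, ..., y (i + n - 1)`. -/
def seg (y : ℕ → α × Bool) (i n : ℕ) : List (α × Bool) := (List.range n).map fun j => y (i + j)

theorem seg_succ (y : ℕ → α × Bool) (i n : ℕ) : seg y i (n + 1) = seg y i n ++ [y (i + n)] := by
  simp [seg, List.range_succ]

theorem seg_cons (y : ℕ → α × Bool) (i n : ℕ) : seg y i (n + 1) = y i :: seg y (i + 1) n := by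
  simp only [seg, List.range_succ_eq_map, List.map_cons, List.map_map, add_zero]
  congr 1
  apply List.map_congr_left
  intro j _
  simp only [Function.comp_apply, Nat.succ_eq_add_one]
  congr 1
  omega

theorem length_seg (y : ℕ → α × Bool) (i n : ℕ) : (seg y i n).length = n := by simp [seg]

/-- The product of the first `n` letters. -/
def prodTo (y : ℕ → α × Bool) (n : ℕ) : FreeGroup α :=
  ((List.range n).map (fun i => lval (y i))).prod

theorem prodTo_succ (y : ℕ → α × Bool) (n : ℕ) : prodTo y (n + 1) = prodTo y n * lval (y n) := by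
  simp [prodTo, List.range_succ]

theorem prodTo_add (y : ℕ → α × Bool) (i n : ℕ) :
    prodTo y (i + n) = prodTo y i * FreeGroup.mk (seg y i n) := by
  induction n with
  | zero => simp [seg, ← FreeGroup.one_eq_mk]
  | succ n ih =>
    rw [← add_assoc, prodTo_succ, ih, seg_succ, ← FreeGroup.mul_mk, mul_assoc]
    rfl

theorem prodTo_eq (y : ℕ → α × Bool) (n : ℕ) : prodTo y n = FreeGroup.mk (seg y 0 n) := by
  have := prodTo_add y 0 n
  simpa [prodTo] using this

theorem isReduced_seg {y : ℕ → α × Bool} (hred : ∀ i, y (i + 1) ≠ linv (y i)) (i n : ℕ) :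
    FreeGroup.IsReduced (seg y i n) := by
  induction n generalizing i with
  | zero => simp [seg]
  | succ n ih =>
    rw [seg_cons]
    cases n with
    | zero => simp [seg]
    | succ n =>
      rw [seg_cons, FreeGroup.isReduced_cons_cons]
      refine ⟨?_, ?_⟩
      · intro h
        by_contra hne
        apply hred i
        apply Prod.ext
        · exact h.symm
        · simp only [linv]
          revert hne
          cases (y i).2 <;> cases (y (i + 1)).2 <;> simp
      · have := ih (i + 1)
        rwa [seg_cons] at this

theorem prodTo_mul_period {y : ℕ → α × Bool} {L : ℕ} (hper : ∀ i, y (i + L) = y i) (n : ℕ) :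
    prodTo y (L + n) = prodTo y L * prodTo y n := by
  rw [prodTo_add, prodTo_eq y n]
  congr 2
  simp only [seg]
  apply List.map_congr_left
  intro j _
  rw [zero_add, add_comm, hper]

theorem prodTo_period_pow {y : ℕ → α × Bool} {L : ℕ} (hper : ∀ i, y (i + L) = y i) (m n : ℕ) :
    prodTo y (m * L + n) = prodTo y L ^ m * prodTo y n := by
  induction m with
  | zero => simp
  | succ m ih =>
    rw [Nat.succ_mul, show m * L + L + n = L + (m * L + n) by ring, prodTo_mul_period hper, ih,
      pow_succ', mul_assoc]

theorem period_mul {y : ℕ → α × Bool} {L : ℕ} (hper : ∀ i, y (i + L) = y i) (m n : ℕ) :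
    y (n + m * L) = y n := by
  induction m with
  | zero => simp
  | succ m ih => rw [Nat.succ_mul, ← add_assoc, hper, ih]

theorem isReduced_invRev [DecidableEq α] {l : List (α × Bool)} (hl : FreeGroup.IsReduced l) :
    FreeGroup.IsReduced (FreeGroup.invRev l) := by
  apply FreeGroup.IsReduced.of_reduce_eq
  rw [FreeGroup.reduce_invRev, hl.reduce_eq]

theorem invRev_concat (l : List (α × Bool)) (t : α × Bool) :
    FreeGroup.invRev (l ++ [t]) = linv t :: FreeGroup.invRev l := by
  simp [FreeGroup.invRev, linv]

theorem toWord_mk_of_reduced [DecidableEq α] {l : List (α × Bool)} (hl : FreeGroup.IsReduced l) :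
    (FreeGroup.mk l).toWord = l := by
  rw [FreeGroup.toWord_mk, hl.reduce_eq]

theorem isReduced_concat_iff (l : List (α × Bool)) (t : α × Bool) :
    FreeGroup.IsReduced (l ++ [t]) ↔
      FreeGroup.IsReduced l ∧ some t ≠ l.getLast?.map linv := by
  unfold FreeGroup.IsReduced
  rw [List.isChain_append]
  constructor
  · rintro ⟨h1, -, h3⟩
    refine ⟨h1, ?_⟩
    intro h
    cases hl : l.getLast? with
    | none => rw [hl] at h; simp at h
    | some z =>
      rw [hl] at h
      simp only [Option.map_some, Option.some.injEq] at h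
      have := h3 z (by rw [hl]; rfl) t (by simp)
      rw [h] at this
      have h4 := this rfl
      simp [linv] at h4
  · rintro ⟨h1, h2⟩
    refine ⟨h1, List.isChain_singleton _, ?_⟩
    intro z hz t' ht'
    simp only [List.head?_cons, Option.mem_def, Option.some.injEq] at ht'
    subst ht'
    intro h
    by_contra hne
    apply h2
    rw [Option.mem_def] at hz
    rw [hz]
    simp only [Option.map_some, Option.some.injEq]
    apply Prod.ext
    · exact h.symm
    · simp only [linv]
      revert hne
      cases z.2 <;> cases t.2 <;> simp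

section Cut

variable [DecidableEq α]

/-- The set of group elements whose reduced word starts with `l`. -/
def fw (l : List (α × Bool)) : Set (FreeGroup α) := {u | ∃ m, u.toWord = l ++ m}

theorem mk_mem_fw {l m : List (α × Bool)} (h : FreeGroup.IsReduced (l ++ m)) :
    FreeGroup.mk (l ++ m) ∈ fw l := ⟨m, toWord_mk_of_reduced h⟩

theorem const_beyond [Finite α] (b : FreeGroup α → κ)
    (hfin : ∀ h, {v | b (v * h) ≠ b v}.Finite) :
    ∃ R : ℕ, ∀ l : List (α × Bool), R < l.length → ∀ u ∈ fw l, b u = b (FreeGroup.mk l) := by
  have hE : (⋃ y : α × Bool, {v : FreeGroup α | b (v * lval y) ≠ b v}).Finite :=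
    Set.finite_iUnion fun y => hfin (lval y)
  obtain ⟨R, hR⟩ := (hE.image FreeGroup.norm).bddAbove
  refine ⟨R, fun l hl u hu => ?_⟩
  obtain ⟨m, hm⟩ := hu
  have hred : FreeGroup.IsReduced (l ++ m) := by rw [← hm]; exact FreeGroup.isReduced_toWord
  have hu : u = FreeGroup.mk (l ++ m) := by rw [← hm, FreeGroup.mk_toWord]
  rw [hu]
  clear hm hu
  induction m using List.reverseRecOn with
  | nil => simp
  | append_singleton m t ih =>
    have hred' : FreeGroup.IsReduced (l ++ m) := by
      rw [← List.append_assoc] at hred
      exact List.IsChain.left_of_append hred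
    rw [← ih hred']
    by_contra hne
    have hmem : FreeGroup.mk (l ++ m) ∈
        (⋃ y : α × Bool, {v : FreeGroup α | b (v * lval y) ≠ b v}) := by
      rw [Set.mem_iUnion]
      refine ⟨t, ?_⟩
      change b (FreeGroup.mk (l ++ m) * FreeGroup.mk [t]) ≠ _
      rw [FreeGroup.mul_mk, List.append_assoc]
      exact hne
    have h1 := hR (Set.mem_image_of_mem _ hmem)
    rw [FreeGroup.norm, toWord_mk_of_reduced hred', List.length_append] at h1
    omega

/-- The cut vertex lemma: a nonconstant function with finite coboundary which is invariant under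
the cyclically reduced periodic word `y` gives a letter `e` (or none) and a colouring of the
other letters by at least two colours, such that no turn of the word joins two colours. -/
theorem exists_cut [Finite α] (b : FreeGroup α → κ) (hfin : ∀ h, {v | b (v * h) ≠ b v}.Finite)
    (y : ℕ → α × Bool) (L : ℕ) (hL : 0 < L) (hper : ∀ i, y (i + L) = y i)
    (hred : ∀ i, y (i + 1) ≠ linv (y i)) (hinv : ∀ v, b (v * prodTo y L) = b v)
    (hnc : ∃ u v, b u ≠ b v) :
    ∃ (e : Option (α × Bool)) (k : α × Bool → κ),
      (∀ i, some (linv (y i)) ≠ e → some (y (i + 1)) ≠ e → k (linv (y i)) = k (y (i + 1))) ∧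
      ∃ p q, some p ≠ e ∧ some q ≠ e ∧ k p ≠ k q := by
  -- powers of the word
  have hpow : ∀ m v, b (v * prodTo y L ^ m) = b v := by
    intro m
    induction m with
    | zero => intro v; simp
    | succ m ih => intro v; rw [pow_succ, ← mul_assoc, hinv, ih]
  have hpow' : ∀ m v, b (v * (prodTo y L ^ m)⁻¹) = b v := by
    intro m v
    rw [← hpow m (v * (prodTo y L ^ m)⁻¹), inv_mul_cancel_right]
  have hnorm : ∀ n, (prodTo y n).toWord.length = n := by
    intro n
    rw [prodTo_eq, toWord_mk_of_reduced (isReduced_seg hred 0 n), length_seg]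
  -- the root is not almost monochromatic
  have hroot : ∀ k, ¬ {u ∈ fw ([] : List (α × Bool)) | b u ≠ k}.Finite := by
    intro k hk
    have hD : {u : FreeGroup α | b u ≠ k}.Finite := by
      apply hk.subset
      intro u hu
      exact ⟨⟨u.toWord, rfl⟩, hu⟩
    by_cases hne : ∃ u, b u ≠ k
    · obtain ⟨u, hu⟩ := hne
      refine Set.infinite_of_injective_forall_mem (f := fun m : ℕ => u * prodTo y L ^ m) ?_ ?_ hD
      · intro m m' hmm
        have h1 : prodTo y L ^ m = prodTo y L ^ m' := mul_left_cancel hmm
        have h2 := prodTo_period_pow hper m 0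
        have h3 := prodTo_period_pow hper m' 0
        rw [h1, ← h3] at h2
        have h4 := congrArg (fun x => (FreeGroup.toWord x).length) h2
        simp only [hnorm, add_zero] at h4
        exact Nat.eq_of_mul_eq_mul_right hL h4
      · intro m
        change b (u * prodTo y L ^ m) ≠ k
        rw [hpow]
        exact hu
    · push Not at hne
      obtain ⟨u, v, huv⟩ := hnc
      exact huv (by rw [hne u, hne v])
  -- a farthest vertex which is not almost monochromatic
  obtain ⟨R, hR⟩ := const_beyond b hfin
  let Good : ℕ → Prop := fun n => ∃ l : List (α × Bool), l.length = n ∧ FreeGroup.IsReduced l ∧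
    ∀ k, ¬ {u ∈ fw l | b u ≠ k}.Finite
  have hGood0 : Good 0 := ⟨[], rfl, FreeGroup.IsReduced.nil, hroot⟩
  have hGoodR : ∀ n, Good n → n ≤ R := by
    rintro n ⟨l, rfl, -, hl⟩
    by_contra hlt
    push Not at hlt
    apply hl (b (FreeGroup.mk l))
    have : {u ∈ fw l | b u ≠ b (FreeGroup.mk l)} = ∅ := by
      ext u
      simp only [Set.mem_ofPred_eq, Set.mem_empty_iff_false, iff_false, not_and, not_not]
      exact hR l hlt u
    rw [this]
    exact Set.finite_empty
  obtain ⟨n, hn, hmax⟩ : ∃ n, Good n ∧ ∀ m, Good m → m ≤ n := by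
    classical
    have hex : ∃ n, Good n := ⟨0, hGood0⟩
    exact ⟨Nat.findGreatest Good R, Nat.findGreatest_spec (Nat.zero_le R) hGood0,
      fun m hm => Nat.le_findGreatest (hGoodR m hm) hm⟩
  obtain ⟨l, hln, hlred, hl⟩ := hn
  have hk : ∀ t : α × Bool, ∃ k : κ, FreeGroup.IsReduced (l ++ [t]) →
      {u ∈ fw (l ++ [t]) | b u ≠ k}.Finite := by
    intro t
    by_cases ht : FreeGroup.IsReduced (l ++ [t])
    · by_contra hcon
      push Not at hcon
      have : Good (n + 1) := ⟨l ++ [t], by simp [hln], ht, fun k => (hcon k).2⟩
      have := hmax _ this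
      omega
    · exact ⟨b 1, fun h => absurd h ht⟩
  choose k hk using hk
  refine ⟨l.getLast?.map linv, k, ?_, ?_⟩
  · -- the two ends of a line have the same colour
    intro i hp hq
    have hpr : FreeGroup.IsReduced (l ++ [linv (y i)]) :=
      (isReduced_concat_iff _ _).mpr ⟨hlred, hp⟩
    have hqr : FreeGroup.IsReduced (l ++ [y (i + 1)]) :=
      (isReduced_concat_iff _ _).mpr ⟨hlred, hq⟩
    have hforward : k (y (i + 1)) = b (FreeGroup.mk l * (prodTo y (i + 1))⁻¹) := by
      have hword : ∀ m : ℕ, (FreeGroup.mk l * (prodTo y (i + 1))⁻¹ *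
          prodTo y L ^ (m + i + 2)).toWord =
          l ++ [y (i + 1)] ++ seg y (i + 1 + 1) ((m + i + 2) * L - (i + 2)) := by
        intro m
        have hle : i + 2 ≤ (m + i + 2) * L := by nlinarith
        have e1 : prodTo y L ^ (m + i + 2) =
            prodTo y (i + 1) * FreeGroup.mk (seg y (i + 1) ((m + i + 2) * L - (i + 2) + 1)) := by
          have h := prodTo_period_pow hper (m + i + 2) 0
          rw [show prodTo y 0 = 1 from rfl, mul_one, add_zero] at h
          rw [← h, ← prodTo_add]
          congr 1
          omega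
        have e2 : FreeGroup.mk l * (prodTo y (i + 1))⁻¹ * prodTo y L ^ (m + i + 2) =
            FreeGroup.mk (l ++ [y (i + 1)] ++ seg y (i + 1 + 1) ((m + i + 2) * L - (i + 2))) := by
          rw [e1, seg_cons, mul_assoc, inv_mul_cancel_left, FreeGroup.mul_mk, List.append_assoc]
          rfl
        rw [e2, toWord_mk_of_reduced]
        apply FreeGroup.IsReduced.append_overlap hqr
        · have := isReduced_seg hred (i + 1) ((m + i + 2) * L - (i + 2) + 1)
          rw [seg_cons] at this
          exact this
        · simp
      by_contra hne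
      refine Set.infinite_of_injective_forall_mem (f := fun m : ℕ =>
        FreeGroup.mk l * (prodTo y (i + 1))⁻¹ * prodTo y L ^ (m + i + 2)) ?_ ?_ (hk _ hqr)
      · intro m m' hmm
        have h1 := congrArg (fun x => (FreeGroup.toWord x).length) hmm
        simp only [hword, List.length_append, length_seg] at h1
        have hle : i + 2 ≤ (m + i + 2) * L := by nlinarith
        have hle' : i + 2 ≤ (m' + i + 2) * L := by nlinarith
        have h2 : (m + i + 2) * L = (m' + i + 2) * L := by omega
        have h3 := Nat.eq_of_mul_eq_mul_right hL h2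
        omega
      · intro m
        refine ⟨⟨_, hword m⟩, ?_⟩
        rw [hpow]
        exact fun h => hne h.symm
    have hbackward : k (linv (y i)) = b (FreeGroup.mk l * (prodTo y (i + 1))⁻¹) := by
      have hword : ∀ m : ℕ, (FreeGroup.mk l * (prodTo y (i + 1))⁻¹ *
          (prodTo y L ^ m)⁻¹).toWord =
          l ++ [linv (y i)] ++ FreeGroup.invRev (seg y 0 (m * L + i)) := by
        intro m
        have e1 : (prodTo y (i + 1))⁻¹ * (prodTo y L ^ m)⁻¹ =
            FreeGroup.mk ([linv (y i)] ++ FreeGroup.invRev (seg y 0 (m * L + i))) := by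
          rw [← mul_inv_rev, ← prodTo_period_pow hper, prodTo_eq, FreeGroup.inv_mk,
            ← add_assoc, seg_succ, invRev_concat, zero_add, add_comm (m * L) i, period_mul hper]
          rfl
        have hsr : FreeGroup.IsReduced
            ([linv (y i)] ++ FreeGroup.invRev (seg y 0 (m * L + i))) := by
          have := isReduced_invRev (isReduced_seg hred 0 (m * L + i + 1))
          rw [seg_succ, invRev_concat, zero_add, add_comm (m * L) i, period_mul hper] at this
          rw [add_comm (m * L) i]
          exact this
        rw [mul_assoc, e1, FreeGroup.mul_mk, ← List.append_assoc, toWord_mk_of_reduced]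
        exact FreeGroup.IsReduced.append_overlap hpr hsr (by simp)
      by_contra hne
      refine Set.infinite_of_injective_forall_mem (f := fun m : ℕ =>
        FreeGroup.mk l * (prodTo y (i + 1))⁻¹ * (prodTo y L ^ m)⁻¹) ?_ ?_ (hk _ hpr)
      · intro m m' hmm
        have h1 := congrArg (fun x => (FreeGroup.toWord x).length) hmm
        simp only [hword, List.length_append, FreeGroup.invRev_length, length_seg] at h1
        have h2 : m * L = m' * L := by omega
        exact Nat.eq_of_mul_eq_mul_right hL h2
      · intro m
        refine ⟨⟨_, hword m⟩, ?_⟩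
        rw [hpow']
        exact fun h => hne h.symm
    rw [hforward, hbackward]
  · -- two colours occur
    by_contra hcon
    push Not at hcon
    have hvalid : ∀ t : α × Bool, FreeGroup.IsReduced (l ++ [t]) → some t ≠ l.getLast?.map linv :=
      fun t ht => ((isReduced_concat_iff _ _).mp ht).2
    obtain ⟨k₀, hk₀⟩ : ∃ k₀ : κ, ∀ t, FreeGroup.IsReduced (l ++ [t]) → k t = k₀ := by
      by_cases hex : ∃ t, FreeGroup.IsReduced (l ++ [t])
      · obtain ⟨t, ht⟩ := hex
        exact ⟨k t, fun s hs => hcon s t (hvalid s hs) (hvalid t ht)⟩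
      · push Not at hex
        exact ⟨b 1, fun t ht => absurd ht (hex t)⟩
    apply hl k₀
    have hunion : {u ∈ fw l | b u ≠ k₀} ⊆ {FreeGroup.mk l} ∪
        ⋃ t : α × Bool, {u : FreeGroup α | FreeGroup.IsReduced (l ++ [t]) ∧
          u ∈ fw (l ++ [t]) ∧ b u ≠ k t} := by
      rintro u ⟨⟨m, hm⟩, hbu⟩
      cases m with
      | nil =>
        left
        rw [Set.mem_singleton_iff, ← FreeGroup.mk_toWord (x := u), hm, List.append_nil]
      | cons t m =>
        right
        rw [Set.mem_iUnion]
        have hr : FreeGroup.IsReduced (l ++ [t]) := by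
          have h : FreeGroup.IsReduced (l ++ t :: m) := by
            rw [← hm]; exact FreeGroup.isReduced_toWord
          rw [List.append_cons] at h
          exact List.IsChain.left_of_append h
        refine ⟨t, hr, ⟨m, by rw [hm]; simp⟩, ?_⟩
        rw [hk₀ t hr]
        exact hbu
    refine Set.Finite.subset ?_ hunion
    apply (Set.finite_singleton _).union
    apply Set.finite_iUnion
    intro t
    by_cases ht : FreeGroup.IsReduced (l ++ [t])
    · apply (hk t ht).subset
      rintro u ⟨-, hu1, hu2⟩
      exact ⟨hu1, hu2⟩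
    · have : {u : FreeGroup α | FreeGroup.IsReduced (l ++ [t]) ∧
          u ∈ fw (l ++ [t]) ∧ b u ≠ k t} = ∅ := by
        ext u
        simp [ht]
      rw [this]
      exact Set.finite_empty

end Cut

end Pool.Agent.Lib.MP_f46d86_al
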