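import Mathlib
import Pool.Agent.Lib.MP_f46d86_al.FreeFactor

/-!
# The commutator of two free generators lies in no proper free factor
-/

set_option autoImplicit false

namespace Pool.Agent.Lib.MP_f46d86_al

/-- The group with two elements. -/
abbrev C2 : Type := Multiplicative (ZMod 2)

theorem comm_of_subsingleton {X : Type*} [Subsingleton X] (x y : FreeGroup X) :
    x * y = y * x := by
  have h1 : ∀ (i : X) (y : FreeGroup X), FreeGroup.of i * y = y * FreeGroup.of i := by
    intro i y
    induction y using FreeGroup.induction_on with
    | C1 => simp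
    | of j => rw [Subsingleton.elim i j]
    | inv_of j _ => rw [Subsingleton.elim i j]; simp
    | mul y z hy hz => rw [← mul_assoc, hy, mul_assoc, hz, mul_assoc]
  induction x using FreeGroup.induction_on with
  | C1 => simp
  | of i => exact h1 i y
  | inv_of i _ =>
    rw [inv_mul_eq_iff_eq_mul, ← mul_assoc, h1 i y, mul_inv_cancel_right]
  | mul x z hx hz => rw [mul_assoc, hz, ← mul_assoc, hx, mul_assoc]

/-- A free group has as many homomorphisms to the group with two elements as there are functions
on the set of generators. -/
noncomputable def homEquivFun (G : Type) [Group G] [IsFreeGroup G] :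
    (G →* C2) ≃ (IsFreeGroup.Generators G → C2) :=
  (IsFreeGroup.lift (G := G) (H := C2)).symm

/-- Homomorphisms from a group with a free factor decomposition. -/
noncomputable def homCoprod {G : Type} [Group G] (A B : Subgroup G)
    (h : Function.Bijective (Monoid.Coprod.lift A.subtype B.subtype)) :
    (G →* C2) ≃ (A →* C2) × (B →* C2) :=
  let e : Monoid.Coprod A B ≃* G := MulEquiv.ofBijective (Monoid.Coprod.lift A.subtype B.subtype) h
  { toFun := fun f => (f.comp A.subtype, f.comp B.subtype)
    invFun := fun p => (Monoid.Coprod.lift p.1 p.2).comp e.symm.toMonoidHom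
    left_inv := fun f => by
      have : Monoid.Coprod.lift (f.comp A.subtype) (f.comp B.subtype) =
          f.comp e.toMonoidHom := Monoid.Coprod.hom_ext rfl rfl
      simp only [this]
      ext x
      change f (e (e.symm x)) = f x
      rw [e.apply_symm_apply]
    right_inv := fun p => by
      apply Prod.ext
      · ext x
        change Monoid.Coprod.lift p.1 p.2 (e.symm (x : G)) = p.1 x
        have : e.symm (x : G) = Monoid.Coprod.inl x := by
          rw [MulEquiv.symm_apply_eq]
          rfl
        rw [this]
        simp
      · ext x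
        change Monoid.Coprod.lift p.1 p.2 (e.symm (x : G)) = p.2 x
        have : e.symm (x : G) = Monoid.Coprod.inr x := by
          rw [MulEquiv.symm_apply_eq]
          rfl
        rw [this]
        simp }

/-- The commutator of the two generators. -/
def comm01 : FreeGroup (Fin 2) :=
  FreeGroup.of 0 * FreeGroup.of 1 * (FreeGroup.of 0)⁻¹ * (FreeGroup.of 1)⁻¹

theorem comm01_ne_one : comm01 ≠ 1 := by decide

theorem commutator_not_inProperFreeFactor : ¬ InProperFreeFactor comm01 := by
  rintro ⟨A, ⟨B, hB⟩, hne, hg⟩
  -- count homomorphisms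
  have e1 : (FreeGroup (Fin 2) →* C2) ≃ (Fin 2 → C2) := FreeGroup.lift.symm
  have e2 : (FreeGroup (Fin 2) →* C2) ≃
      (IsFreeGroup.Generators A → C2) × (IsFreeGroup.Generators B → C2) :=
    (homCoprod A B hB).trans ((homEquivFun A).prodCongr (homEquivFun B))
  have e3 : (Fin 2 → C2) ≃ (IsFreeGroup.Generators A ⊕ IsFreeGroup.Generators B → C2) :=
    (e1.symm.trans e2).trans (Equiv.sumArrowEquivProdArrow _ _ _).symm
  have hfin : Finite (IsFreeGroup.Generators A ⊕ IsFreeGroup.Generators B → C2) :=
    Finite.of_equiv _ e3
  classical
  have hfin2 : Finite (IsFreeGroup.Generators A ⊕ IsFreeGroup.Generators B) := by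
    have hinj : Function.Injective
        (fun (i j : IsFreeGroup.Generators A ⊕ IsFreeGroup.Generators B) =>
          if i = j then (Multiplicative.ofAdd (1 : ZMod 2)) else 1) := by
      intro i j hij
      have := congrFun hij j
      by_contra h
      simp only [if_pos, if_neg h] at this
      exact absurd this (by decide)
    exact Finite.of_injective _ hinj
  have hA : Finite (IsFreeGroup.Generators A) :=
    Finite.of_injective (Sum.inl : _ → IsFreeGroup.Generators A ⊕ IsFreeGroup.Generators B)
      Sum.inl_injective
  have hB' : Finite (IsFreeGroup.Generators B) :=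
    Finite.of_injective (Sum.inr : _ → IsFreeGroup.Generators A ⊕ IsFreeGroup.Generators B)
      Sum.inr_injective
  have hcard := Nat.card_congr e3
  rw [Nat.card_fun, Nat.card_fun, Nat.card_sum] at hcard
  have hc2 : Nat.card C2 = 2 := by simp [C2]
  rw [hc2, Nat.card_eq_fintype_card, Fintype.card_fin] at hcard
  have hsum : Nat.card (IsFreeGroup.Generators A) + Nat.card (IsFreeGroup.Generators B) = 2 :=
    (Nat.pow_right_injective le_rfl hcard).symm
  have hBne : Nonempty (IsFreeGroup.Generators B) := by
    by_contra hcon
    rw [not_nonempty_iff] at hcon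
    apply hne
    have hBtriv : ∀ b : B, b = 1 := by
      intro b
      have e := (IsFreeGroup.toFreeGroup B)
      have : Subsingleton (FreeGroup (IsFreeGroup.Generators B)) := inferInstance
      exact e.injective (Subsingleton.elim _ _)
    rw [eq_top_iff]
    intro x _
    obtain ⟨y, rfl⟩ := hB.2 x
    have : (Monoid.Coprod.lift A.subtype B.subtype) =
        A.subtype.comp (Monoid.Coprod.lift (MonoidHom.id A) 1) := by
      apply Monoid.Coprod.hom_ext
      · rfl
      · ext b
        rw [hBtriv b]
        simp
    rw [this]
    exact (Monoid.Coprod.lift (MonoidHom.id A) 1 y).2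
  have hBpos : 0 < Nat.card (IsFreeGroup.Generators B) := Nat.card_pos
  have hA1 : Nat.card (IsFreeGroup.Generators A) ≤ 1 := by omega
  have hsub : Subsingleton (IsFreeGroup.Generators A) := Finite.card_le_one_iff_subsingleton.mp hA1
  -- the retraction
  let e : Monoid.Coprod A B ≃* FreeGroup (Fin 2) := MulEquiv.ofBijective _ hB
  let r : FreeGroup (Fin 2) →* A := (Monoid.Coprod.lift (MonoidHom.id A) 1).comp e.symm.toMonoidHom
  have hr : ∀ a : A, r (a : FreeGroup (Fin 2)) = a := by
    intro a
    change Monoid.Coprod.lift (MonoidHom.id A) 1 (e.symm (a : FreeGroup (Fin 2))) = a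
    have : e.symm (a : FreeGroup (Fin 2)) = Monoid.Coprod.inl a := by
      rw [MulEquiv.symm_apply_eq]
      rfl
    rw [this]
    simp
  have hcommA : ∀ x y : A, x * y = y * x := by
    intro x y
    apply (IsFreeGroup.toFreeGroup A).injective
    rw [map_mul, map_mul]
    exact comm_of_subsingleton _ _
  have h1 : r comm01 = 1 := by
    rw [comm01, map_mul, map_mul, map_mul, map_inv, map_inv,
      hcommA (r (FreeGroup.of 0)) (r (FreeGroup.of 1)), mul_inv_cancel_right, mul_inv_cancel]
  have h2 : r comm01 = ⟨comm01, hg⟩ := hr ⟨_, hg⟩
  rw [h1] at h2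
  exact comm01_ne_one (congrArg Subtype.val h2).symm

end Pool.Agent.Lib.MP_f46d86_al
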