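import Mathlib

/-!
# The profinite completion of a free group
-/

set_option autoImplicit false

namespace Pool.Agent.Lib.MP_f46d86_al

open ProfiniteGrp.ProfiniteCompletion

/-- The profinite completion of the free group, as a type. -/
abbrev Hat (α : Type) : Type := completion (GrpCat.of (FreeGroup α))

variable {α : Type}

/-- The canonical homomorphism. -/
def etaHom (α : Type) : FreeGroup α →* Hat α where
  toFun f := etaFn (GrpCat.of (FreeGroup α)) f
  map_one' := rfl
  map_mul' _ _ := rfl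

theorem etaHom_dense : DenseRange (etaHom α) := denseRange (GrpCat.of (FreeGroup α))

/-- Evaluation in a finite quotient. -/
def ev (U : Subgroup (FreeGroup α)) [U.Normal] [U.FiniteIndex] : Hat α →* FreeGroup α ⧸ U where
  toFun x := x.val (FiniteIndexNormalSubgroup.ofSubgroup U)
  map_one' := rfl
  map_mul' _ _ := rfl

theorem ev_eta (U : Subgroup (FreeGroup α)) [U.Normal] [U.FiniteIndex] (f : FreeGroup α) :
    ev U (etaHom α f) = QuotientGroup.mk f := rfl

theorem ev_surjective (U : Subgroup (FreeGroup α)) [U.Normal] [U.FiniteIndex] :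
    Function.Surjective (ev U) := by
  intro q
  obtain ⟨f, rfl⟩ := QuotientGroup.mk_surjective q
  exact ⟨etaHom α f, ev_eta U f⟩

theorem continuous_ev (U : Subgroup (FreeGroup α)) [U.Normal] [U.FiniteIndex]
    [TopologicalSpace (FreeGroup α ⧸ U)] [hd : DiscreteTopology (FreeGroup α ⧸ U)] :
    Continuous (ev U) := by
  have h := hd.eq_bot
  subst h
  exact (continuous_apply (FiniteIndexNormalSubgroup.ofSubgroup U)).comp continuous_subtype_val

theorem map_ev {U' U : Subgroup (FreeGroup α)} [U'.Normal] [U'.FiniteIndex] [U.Normal]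
    [U.FiniteIndex] (h : U' ≤ U) (x : Hat α) :
    QuotientGroup.map U' U (MonoidHom.id _) h (ev U' x) = ev U x := by
  have h' : FiniteIndexNormalSubgroup.ofSubgroup U' ≤ FiniteIndexNormalSubgroup.ofSubgroup U := h
  exact x.2 (CategoryTheory.homOfLE h')

theorem isOpen_preimage_ev (U : Subgroup (FreeGroup α)) [U.Normal] [U.FiniteIndex] (S : Set _) :
    IsOpen ((ev U) ⁻¹' S) := by
  let _ : TopologicalSpace (FreeGroup α ⧸ U) := ⊥
  have : DiscreteTopology (FreeGroup α ⧸ U) := ⟨rfl⟩
  exact (isOpen_discrete S).preimage (continuous_ev U)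

theorem exists_ev_subset (N : Set (Hat α)) (hN : IsOpen N) (h1 : (1 : Hat α) ∈ N) :
    ∃ (U : Subgroup (FreeGroup α)) (_ : U.Normal) (_ : U.FiniteIndex),
      ∀ x : Hat α, ev U x = 1 → x ∈ N := by
  obtain ⟨N', hN'⟩ := ProfiniteGrp.exist_openNormalSubgroup_sub_open_nhds_of_one hN h1
  have hfi : (N'.toSubgroup).FiniteIndex := Subgroup.finiteIndex_of_finite_quotient
  have hfi' : (N'.toSubgroup.comap (etaHom α)).FiniteIndex :=
    (N'.toFiniteIndexNormalSubgroup.comap (etaHom α)).isFiniteIndex'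
  have hnorm : (N'.toSubgroup.comap (etaHom α)).Normal :=
    (N'.toFiniteIndexNormalSubgroup.comap (etaHom α)).isNormal'
  refine ⟨N'.toSubgroup.comap (etaHom α), hnorm, hfi', ?_⟩
  intro x hx
  apply hN'
  by_contra hxN
  have ho : IsOpen ((ev (N'.toSubgroup.comap (etaHom α))) ⁻¹' {1} ∩
      ((N'.toSubgroup : Set (Hat α))ᶜ)) := by
    refine (isOpen_preimage_ev _ _).inter ?_
    rw [isOpen_compl_iff]
    exact Subgroup.isClosed_of_isOpen _ N'.isOpen
  obtain ⟨f, hf1, hf2⟩ := etaHom_dense.exists_mem_open ho ⟨x, hx, hxN⟩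
  apply hf2
  have : (QuotientGroup.mk f : FreeGroup α ⧸ N'.toSubgroup.comap (etaHom α)) = 1 := hf1
  exact (QuotientGroup.eq_one_iff f).mp this

theorem exists_proper (H : Subgroup (Hat α)) (hH : IsClosed (H : Set (Hat α))) (hne : H ≠ ⊤) :
    ∃ (U : Subgroup (FreeGroup α)) (_ : U.Normal) (_ : U.FiniteIndex), H.map (ev U) ≠ ⊤ := by
  obtain ⟨x, hx⟩ : ∃ x, x ∉ H := by
    by_contra hcon
    push Not at hcon
    exact hne (eq_top_iff.mpr fun x _ => hcon x)
  have ho : IsOpen {n : Hat α | x * n ∉ H} :=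
    (isOpen_compl_iff.mpr hH).preimage (continuous_const_mul x)
  obtain ⟨U, hU1, hU2, hU⟩ := exists_ev_subset _ ho (by
    change x * 1 ∉ H
    rwa [mul_one])
  refine ⟨U, hU1, hU2, fun htop => ?_⟩
  have : ev U x ∈ H.map (ev U) := by rw [htop]; trivial
  obtain ⟨h, hh, hhx⟩ := this
  have h2 := hU (x⁻¹ * h) (by rw [map_mul, map_inv, hhx, inv_mul_cancel])
  apply h2
  rw [mul_inv_cancel_left]
  exact hh

end Pool.Agent.Lib.MP_f46d86_al
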