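import Mathlib

/-!
# Piles, rigid embedding problems, projective piles

Group actions are written on the left: the right action `t ^ g` of the source is `g⁻¹ • t`.
-/

set_option autoImplicit false

namespace Pool.Agent.Lib.MP_f46d86_al

/-- A morphism of piles `(G, T) → (A, X)`: a continuous homomorphism `G → A` and a continuous map
`T → X` compatible with the actions. -/
structure PileHom (G T A X : Type*) [Group G] [TopologicalSpace G] [TopologicalSpace T]
    [MulAction G T] [Group A] [TopologicalSpace A] [TopologicalSpace X] [MulAction A X] where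
  /-- the homomorphism -/
  grp : G →* A
  /-- the map of spaces -/
  pt : T → X
  continuous_grp : Continuous grp
  continuous_pt : Continuous pt
  map_smul : ∀ (g : G) (t : T), pt (g • t) = grp g • pt t

section

variable {B Y A X : Type*} [Group B] [TopologicalSpace B] [TopologicalSpace Y]
    [MulAction B Y] [Group A] [TopologicalSpace A] [TopologicalSpace X] [MulAction A X]

/-- A morphism of piles `(B, Y) → (A, X)` is an epimorphism if `B → A` and `Y → X` are surjective
and every `x : X` has a preimage `y` such that `B_y` is mapped onto `A_x`. -/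
structure PileHom.IsEpi (f : PileHom B Y A X) : Prop where
  surj_grp : Function.Surjective f.grp
  surj_pt : Function.Surjective f.pt
  stab : ∀ x : X, ∃ y : Y, f.pt y = x ∧
    (MulAction.stabilizer B y).map f.grp = MulAction.stabilizer A x

/-- The map induced by a morphism of piles on the orbit spaces. -/
def PileHom.orbitMap (f : PileHom B Y A X) :
    MulAction.orbitRel.Quotient B Y → MulAction.orbitRel.Quotient A X :=
  Quotient.map' f.pt (by
    rintro y y' ⟨b, hb⟩
    exact ⟨f.grp b, by rw [← hb]; exact (f.map_smul b y').symm⟩)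

/-- A morphism of piles `(B, Y) → (A, X)` is rigid if every `B_y` is mapped isomorphically onto
`A_{f(y)}` and the induced map of orbit spaces `Y/B → X/A` is a homeomorphism. -/
structure PileHom.IsRigid (f : PileHom B Y A X) : Prop where
  bijOn : ∀ y : Y, Set.BijOn f.grp (MulAction.stabilizer B y) (MulAction.stabilizer A (f.pt y))
  homeo : IsHomeomorph f.orbitMap

end

/-- The pile `(G, T)` is projective: every finite rigid embedding problem
`(φ : (G, T) → (A, X), α : (B, Y) → (A, X))` for it has a solution `γ : (G, T) → (B, Y)`,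
`α ∘ γ = φ`. (Finite groups and finite spaces carry the discrete topology.) -/
def IsProjectivePile (G T : Type*) [Group G] [TopologicalSpace G] [TopologicalSpace T]
    [MulAction G T] : Prop :=
  ∀ (A X B Y : Type) [Group A] [TopologicalSpace A] [DiscreteTopology A] [Finite A]
    [TopologicalSpace X] [DiscreteTopology X] [Finite X] [MulAction A X]
    [Group B] [TopologicalSpace B] [DiscreteTopology B] [Finite B]
    [TopologicalSpace Y] [DiscreteTopology Y] [Finite Y] [MulAction B Y]
    (φ : PileHom G T A X) (α : PileHom B Y A X), α.IsEpi → α.IsRigid →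
    ∃ γ : PileHom G T B Y, (∀ g, α.grp (γ.grp g) = φ.grp g) ∧ ∀ t, α.pt (γ.pt t) = φ.pt t

/-! ### Rigid epimorphisms between unions of two orbits -/

section Rigid

variable {B Q : Type*} [Group B] [Group Q]

/-- The disjoint union of two coset spaces, with the discrete topology. -/
abbrev TwoOrbits {B : Type*} [Group B] (S₀ S₁ : Subgroup B) : Type _ := (B ⧸ S₀) ⊕ (B ⧸ S₁)

/-- The induced map of coset spaces. -/
def cosetMap (α : B →* Q) {S : Subgroup B} {R : Subgroup Q} (h : ∀ s ∈ S, α s ∈ R) :
    (B ⧸ S) → (Q ⧸ R) :=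
  Quotient.map' α (by
    intro b b' hb
    rw [QuotientGroup.leftRel_apply] at hb ⊢
    rw [← map_inv, ← map_mul]
    exact h _ hb)

theorem cosetMap_mk (α : B →* Q) {S : Subgroup B} {R : Subgroup Q} (h : ∀ s ∈ S, α s ∈ R) (b : B) :
    cosetMap α h (QuotientGroup.mk b) = QuotientGroup.mk (α b) := rfl

theorem mem_stabilizer_coset {S : Subgroup B} (x b : B) :
    x ∈ MulAction.stabilizer B (QuotientGroup.mk b : B ⧸ S) ↔ b⁻¹ * x * b ∈ S := by
  rw [MulAction.mem_stabilizer_iff]
  change (QuotientGroup.mk (x * b) : B ⧸ S) = QuotientGroup.mk b ↔ _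
  rw [eq_comm, QuotientGroup.eq, mul_assoc]

theorem bijOn_coset (α : B →* Q) {S : Subgroup B} {R : Subgroup Q}
    (h : Set.BijOn α S R) (b : B) :
    Set.BijOn α (MulAction.stabilizer B (QuotientGroup.mk b : B ⧸ S))
      (MulAction.stabilizer Q (QuotientGroup.mk (α b) : Q ⧸ R)) := by
  refine ⟨?_, ?_, ?_⟩
  · intro x hx
    rw [SetLike.mem_coe, mem_stabilizer_coset] at hx ⊢
    have := h.mapsTo hx
    rwa [map_mul, map_mul, map_inv] at this
  · intro x hx x' hx' hxx
    rw [SetLike.mem_coe, mem_stabilizer_coset] at hx hx'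
    have h1 : b⁻¹ * x * b = b⁻¹ * x' * b := by
      apply h.injOn hx hx'
      simp only [map_mul, hxx]
    have h2 := mul_right_cancel h1
    exact mul_left_cancel h2
  · intro z hz
    rw [SetLike.mem_coe, mem_stabilizer_coset] at hz
    obtain ⟨s, hs, hsz⟩ := h.surjOn hz
    refine ⟨b * s * b⁻¹, ?_, ?_⟩
    · rw [SetLike.mem_coe, mem_stabilizer_coset]
      have : b⁻¹ * (b * s * b⁻¹) * b = s := by group
      rw [this]; exact hs
    · rw [map_mul, map_mul, hsz, map_inv]
      group

theorem sum_stabilizer_inl {S₀ S₁ : Subgroup B} (q : B ⧸ S₀) :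
    MulAction.stabilizer B (Sum.inl q : TwoOrbits S₀ S₁) = MulAction.stabilizer B q := by
  ext x
  rw [MulAction.mem_stabilizer_iff, MulAction.mem_stabilizer_iff, Sum.smul_inl]
  exact Sum.inl_injective.eq_iff

theorem sum_stabilizer_inr {S₀ S₁ : Subgroup B} (q : B ⧸ S₁) :
    MulAction.stabilizer B (Sum.inr q : TwoOrbits S₀ S₁) = MulAction.stabilizer B q := by
  ext x
  rw [MulAction.mem_stabilizer_iff, MulAction.mem_stabilizer_iff, Sum.smul_inr]
  exact Sum.inr_injective.eq_iff

theorem isHomeomorph_of_discrete {X Y : Type*} [TopologicalSpace X] [DiscreteTopology X]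
    [TopologicalSpace Y] [DiscreteTopology Y] {f : X → Y} (hf : Function.Bijective f) :
    IsHomeomorph f :=
  ⟨continuous_of_discreteTopology, fun _ _ => isOpen_discrete _, hf⟩

theorem discrete_orbit {Y : Type*} [TopologicalSpace Y] [DiscreteTopology Y]
    [MulAction B Y] : DiscreteTopology (MulAction.orbitRel.Quotient B Y) := by
  rw [discreteTopology_iff_forall_isOpen]
  intro s
  exact isOpen_coinduced.mpr (isOpen_discrete _)

variable [TopologicalSpace B] [DiscreteTopology B] [TopologicalSpace Q] [DiscreteTopology Q]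

theorem discrete_two (S₀ S₁ : Subgroup B) : DiscreteTopology (TwoOrbits S₀ S₁) := by
  have h0 : DiscreteTopology (B ⧸ S₀) := QuotientGroup.discreteTopology (isOpen_discrete _)
  have h1 : DiscreteTopology (B ⧸ S₁) := QuotientGroup.discreteTopology (isOpen_discrete _)
  infer_instance

variable (α : B →* Q) {S₀ S₁ : Subgroup B} {R₀ R₁ : Subgroup Q}
  (h₀ : Set.BijOn α S₀ R₀) (h₁ : Set.BijOn α S₁ R₁)

/-- The morphism of piles between unions of two orbits. -/
def twoHom : PileHom B (TwoOrbits S₀ S₁) Q (TwoOrbits R₀ R₁) where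
  grp := α
  pt := Sum.map (cosetMap α fun _ hs => h₀.mapsTo hs) (cosetMap α fun _ hs => h₁.mapsTo hs)
  continuous_grp := continuous_of_discreteTopology
  continuous_pt := by
    have := discrete_two S₀ S₁
    exact continuous_of_discreteTopology
  map_smul := by
    rintro b (q | q)
    · obtain ⟨c, rfl⟩ := QuotientGroup.mk_surjective q
      change Sum.inl (QuotientGroup.mk (α (b * c))) = Sum.inl (QuotientGroup.mk (α b * α c))
      rw [map_mul]
    · obtain ⟨c, rfl⟩ := QuotientGroup.mk_surjective q
      change Sum.inr (QuotientGroup.mk (α (b * c))) = Sum.inr (QuotientGroup.mk (α b * α c))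
      rw [map_mul]

theorem twoHom_isRigid (hα : Function.Surjective α) : (twoHom α h₀ h₁).IsRigid := by
  constructor
  · rintro (q | q)
    · obtain ⟨b, rfl⟩ := QuotientGroup.mk_surjective q
      have := bijOn_coset α h₀ b
      rw [sum_stabilizer_inl]
      change Set.BijOn α _ (MulAction.stabilizer Q
        (Sum.inl (QuotientGroup.mk (α b)) : TwoOrbits R₀ R₁))
      rw [sum_stabilizer_inl]
      exact this
    · obtain ⟨b, rfl⟩ := QuotientGroup.mk_surjective q
      have := bijOn_coset α h₁ b
      rw [sum_stabilizer_inr]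
      change Set.BijOn α _ (MulAction.stabilizer Q
        (Sum.inr (QuotientGroup.mk (α b)) : TwoOrbits R₀ R₁))
      rw [sum_stabilizer_inr]
      exact this
  · have hd1 := discrete_two S₀ S₁
    have hd2 := discrete_two R₀ R₁
    have hd3 : DiscreteTopology (MulAction.orbitRel.Quotient B (TwoOrbits S₀ S₁)) := discrete_orbit
    have hd4 : DiscreteTopology (MulAction.orbitRel.Quotient Q (TwoOrbits R₀ R₁)) := discrete_orbit
    apply isHomeomorph_of_discrete
    constructor
    · intro y y'
      obtain ⟨y, rfl⟩ := Quotient.exists_rep y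
      obtain ⟨y', rfl⟩ := Quotient.exists_rep y'
      intro h
      have h2 : ∃ a : Q, a • (twoHom α h₀ h₁).pt y' = (twoHom α h₀ h₁).pt y := by
        have := Quotient.exact h
        exact this
      apply Quotient.sound
      obtain ⟨a, ha⟩ := h2
      rcases y with (q | q) <;> rcases y' with (q' | q')
      · obtain ⟨b, rfl⟩ := QuotientGroup.mk_surjective q
        obtain ⟨b', rfl⟩ := QuotientGroup.mk_surjective q'
        refine ⟨b * b'⁻¹, ?_⟩
        change (Sum.inl (QuotientGroup.mk (b * b'⁻¹ * b')) : TwoOrbits S₀ S₁) = _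
        rw [inv_mul_cancel_right]
      · exact absurd ha (by intro h; cases h)
      · exact absurd ha (by intro h; cases h)
      · obtain ⟨b, rfl⟩ := QuotientGroup.mk_surjective q
        obtain ⟨b', rfl⟩ := QuotientGroup.mk_surjective q'
        refine ⟨b * b'⁻¹, ?_⟩
        change (Sum.inr (QuotientGroup.mk (b * b'⁻¹ * b')) : TwoOrbits S₀ S₁) = _
        rw [inv_mul_cancel_right]
    · intro x
      obtain ⟨x, rfl⟩ := Quotient.exists_rep x
      rcases x with (q | q)
      · obtain ⟨c, rfl⟩ := QuotientGroup.mk_surjective q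
        obtain ⟨b, rfl⟩ := hα c
        exact ⟨Quotient.mk _ (Sum.inl (QuotientGroup.mk b)), rfl⟩
      · obtain ⟨c, rfl⟩ := QuotientGroup.mk_surjective q
        obtain ⟨b, rfl⟩ := hα c
        exact ⟨Quotient.mk _ (Sum.inr (QuotientGroup.mk b)), rfl⟩

theorem twoHom_isEpi (hα : Function.Surjective α) : (twoHom α h₀ h₁).IsEpi := by
  have hr := twoHom_isRigid α h₀ h₁ hα
  have hsurj : Function.Surjective (twoHom α h₀ h₁).pt := by
    rintro (q | q)
    · obtain ⟨c, rfl⟩ := QuotientGroup.mk_surjective q
      obtain ⟨b, rfl⟩ := hα c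
      exact ⟨Sum.inl (QuotientGroup.mk b), rfl⟩
    · obtain ⟨c, rfl⟩ := QuotientGroup.mk_surjective q
      obtain ⟨b, rfl⟩ := hα c
      exact ⟨Sum.inr (QuotientGroup.mk b), rfl⟩
  refine ⟨hα, hsurj, ?_⟩
  intro x
  obtain ⟨y, rfl⟩ := hsurj x
  refine ⟨y, rfl, ?_⟩
  apply SetLike.coe_injective
  rw [Subgroup.coe_map]
  exact (hr.bijOn y).image_eq

end Rigid

end Pool.Agent.Lib.MP_f46d86_al
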