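import Mathlib
import Pool.Agent.Lib.MP_f46d86_al.Hat
import Pool.Agent.Lib.MP_f46d86_al.Piles
import Pool.Agent.Lib.MP_f46d86_al.FreeFactor

/-!
# The degenerate pile: one global fixed point and one free orbit
-/

set_option autoImplicit false

namespace Pool.Agent.Lib.MP_f46d86_al

variable {α : Type}

/-- A global fixed point and a free orbit. -/
abbrev OnePlus (α : Type) : Type := Unit ⊕ Hat α

instance : MulAction (Hat α) (OnePlus α) where
  smul g t := Sum.map id (fun h => g * h) t
  one_smul t := by
    rcases t with (t | t)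
    · rfl
    · change Sum.inr (1 * t) = _
      rw [one_mul]
  mul_smul g g' t := by
    rcases t with (t | t)
    · rfl
    · change Sum.inr (g * g' * t) = Sum.inr (g * (g' * t))
      rw [mul_assoc]

instance : ContinuousSMul (Hat α) (OnePlus α) where
  continuous_smul := by
    let e : (Hat α × Unit) ⊕ (Hat α × Hat α) ≃ₜ Hat α × (Unit ⊕ Hat α) :=
      Homeomorph.prodSumDistrib.symm
    rw [← e.comp_continuous_iff']
    rw [continuous_sum_dom]
    constructor
    · have : ((fun p : Hat α × OnePlus α => p.1 • p.2) ∘ e) ∘ Sum.inl =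
          fun p : Hat α × Unit => (Sum.inl p.2 : OnePlus α) := rfl
      rw [this]
      exact continuous_inl.comp continuous_snd
    · have : ((fun p : Hat α × OnePlus α => p.1 • p.2) ∘ e) ∘ Sum.inr =
          fun p : Hat α × Hat α => (Sum.inr (p.1 * p.2) : OnePlus α) := rfl
      rw [this]
      exact continuous_inr.comp (continuous_fst.mul continuous_snd)

theorem stabilizer_point : MulAction.stabilizer (Hat α) (Sum.inl () : OnePlus α) = ⊤ := by
  rw [eq_top_iff]
  intro g _
  rfl

/-- A homomorphism to a finite group extends continuously. -/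
theorem exists_extend_hom {B : Type} [Group B] [Finite B] [TopologicalSpace B]
    [DiscreteTopology B] (f : FreeGroup α →* B) :
    ∃ γ : Hat α →* B, Continuous γ ∧ ∀ x, γ (etaHom α x) = f x := by
  have : f.ker.FiniteIndex := inferInstance
  refine ⟨(QuotientGroup.kerLift f).comp (ev f.ker), ?_, fun x => rfl⟩
  rw [continuous_discrete_rng]
  intro b
  exact isOpen_preimage_ev f.ker ((QuotientGroup.kerLift f) ⁻¹' {b})

theorem onePlus_projective : IsProjectivePile (Hat α) (OnePlus α) := by
  intro A X B Y _ _ _ _ _ _ _ _ _ _ _ _ _ _ _ _ φ β hepi _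
  obtain ⟨y₀, hy₀, hst⟩ := hepi.stab (φ.pt (Sum.inl ()))
  obtain ⟨y₁, hy₁⟩ := hepi.surj_pt (φ.pt (Sum.inr 1))
  have h1 : ∀ g : Hat α, φ.grp g ∈ MulAction.stabilizer A (φ.pt (Sum.inl ())) := by
    intro g
    rw [MulAction.mem_stabilizer_iff, ← φ.map_smul]
    rfl
  have h2 : ∀ i : α, ∃ b ∈ MulAction.stabilizer B y₀, β.grp b = φ.grp (etaHom α (FreeGroup.of i)) := by
    intro i
    have := h1 (etaHom α (FreeGroup.of i))
    rw [← hst] at this
    exact this
  choose b hb hb' using h2
  obtain ⟨γ, hγc, hγ⟩ := exists_extend_hom (FreeGroup.lift b)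
  have hcomp : ∀ g : Hat α, β.grp (γ g) = φ.grp g := by
    have : (fun g => β.grp (γ g)) = fun g => φ.grp g := by
      apply etaHom_dense.equalizer (β.continuous_grp.comp hγc) φ.continuous_grp
      funext x
      simp only [Function.comp]
      rw [hγ]
      have : (β.grp.comp (FreeGroup.lift b)) = φ.grp.comp (etaHom α) := by
        ext i
        simp [hb']
      exact DFunLike.congr_fun this x
    exact fun g => congrFun this g
  have hstab : ∀ g : Hat α, γ g • y₀ = y₀ := by
    have hcl : IsClosed {g : Hat α | γ g ∈ MulAction.stabilizer B y₀} :=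
      (isClosed_discrete _).preimage hγc
    intro g
    have : g ∈ {g : Hat α | γ g ∈ MulAction.stabilizer B y₀} := by
      apply hcl.closure_subset_iff.mpr _ (etaHom_dense g)
      rintro _ ⟨x, rfl⟩
      change γ (etaHom α x) ∈ MulAction.stabilizer B y₀
      rw [hγ]
      induction x using FreeGroup.induction_on with
      | C1 => rw [map_one]; exact one_mem _
      | of i => simpa using hb i
      | inv_of i _ => rw [map_inv]; exact inv_mem (by simpa using hb i)
      | mul x y hx hy => rw [map_mul]; exact mul_mem hx hy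
    exact this
  refine ⟨⟨γ, Sum.elim (fun _ => y₀) (fun h => γ h • y₁), hγc, ?_, ?_⟩, hcomp, ?_⟩
  · apply Continuous.sumElim continuous_const
    exact (continuous_of_discreteTopology (f := fun b : B => b • y₁)).comp hγc
  · rintro g (t | t)
    · exact (hstab g).symm
    · change γ (g * t) • y₁ = γ g • (γ t • y₁)
      rw [map_mul, mul_smul]
  · rintro (t | t)
    · exact hy₀
    · change β.pt (γ t • y₁) = _
      rw [β.map_smul, hcomp, hy₁, ← φ.map_smul]
      change φ.pt (Sum.inr (t * 1)) = _
      rw [mul_one]

end Pool.Agent.Lib.MP_f46d86_al
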