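import Mathlib

/-!
# Finite-dimensional tricks: extending partial automorphisms
-/

set_option autoImplicit false

namespace Pool.Agent.Lib.MP_f46d86_al

/-- A partial isomorphism of a finite-dimensional space extends to an automorphism: if `ρ` is an
automorphism of `V` and `W` is a finite-dimensional subspace then some automorphism of `W` agrees
with `ρ` wherever `ρ` maps a vector of `W` into `W`. -/
theorem exists_extend_partial {k V : Type*} [Field k] [AddCommGroup V] [Module k V]
    (W : Submodule k V) [FiniteDimensional k W] (ρ : V ≃ₗ[k] V) :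
    ∃ σ : W ≃ₗ[k] W, ∀ w : W, ρ w ∈ W → (σ w : V) = ρ w := by
  let A : Submodule k W := (W.comap ρ.toLinearMap).comap W.subtype
  let f : A →ₗ[k] W :=
    { toFun := fun a => ⟨ρ a, a.2⟩
      map_add' := fun a b => by ext; simp
      map_smul' := fun c a => by ext; simp }
  have hf : Function.Injective f := by
    intro a b hab
    have h1 : ρ (a : W) = ρ (b : W) := congrArg Subtype.val hab
    exact Subtype.ext (Subtype.ext (ρ.injective h1))
  let e : A ≃ₗ[k] LinearMap.range f := LinearEquiv.ofInjective f hf
  obtain ⟨A', hA'⟩ := Submodule.exists_isCompl A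
  obtain ⟨B', hB'⟩ := Submodule.exists_isCompl (LinearMap.range f)
  have h1 := Submodule.finrank_add_eq_of_isCompl hA'
  have h2 := Submodule.finrank_add_eq_of_isCompl hB'
  have h3 : Module.finrank k A = Module.finrank k (LinearMap.range f) := e.finrank_eq
  have h4 : Module.finrank k A' = Module.finrank k B' := by omega
  let e' : A' ≃ₗ[k] B' := LinearEquiv.ofFinrankEq A' B' h4
  refine ⟨(Submodule.prodEquivOfIsCompl A A' hA').symm.trans
    ((LinearEquiv.prodCongr e e').trans
      (Submodule.prodEquivOfIsCompl (LinearMap.range f) B' hB')), ?_⟩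
  intro w hw
  have hwA : w ∈ A := hw
  have h5 : (Submodule.prodEquivOfIsCompl A A' hA').symm w = (⟨w, hwA⟩, 0) := by
    rw [LinearEquiv.symm_apply_eq]
    simp
  simp only [LinearEquiv.trans_apply, h5]
  simp [e, f]

end Pool.Agent.Lib.MP_f46d86_al
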