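import Mathlib
import Pool.Agent.Lib.MP_f46d86_al.Extend
import Pool.Agent.Lib.MP_f46d86_al.Shorten

/-!
# Residual finiteness of finitely presented modules over the group algebra of a free group
-/

set_option autoImplicit false

namespace Pool.Agent.Lib.MP_f46d86_al

open MonoidAlgebra

variable {k : Type*} [Field k] {α : Type*}

/-- Multiplication by a group element as a linear automorphism. -/
noncomputable def mulE {V : Type*} [AddCommGroup V] [Module k V]
    [Module (MonoidAlgebra k (FreeGroup α)) V]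
    [IsScalarTower k (MonoidAlgebra k (FreeGroup α)) V] (x : FreeGroup α) : V ≃ₗ[k] V where
  toFun v := (single x 1 : MonoidAlgebra k (FreeGroup α)) • v
  invFun v := (single x⁻¹ 1 : MonoidAlgebra k (FreeGroup α)) • v
  map_add' := smul_add _
  map_smul' c v := smul_comm _ _ _
  left_inv v := by
    change (single x⁻¹ 1 : MonoidAlgebra k (FreeGroup α)) •
      (single x 1 : MonoidAlgebra k (FreeGroup α)) • v = v
    rw [smul_smul, single_mul_single, inv_mul_cancel, one_mul, ← one_def, one_smul]
  right_inv v := by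
    change (single x 1 : MonoidAlgebra k (FreeGroup α)) •
      (single x⁻¹ 1 : MonoidAlgebra k (FreeGroup α)) • v = v
    rw [smul_smul, single_mul_single, mul_inv_cancel, one_mul, ← one_def, one_smul]

theorem mulE_apply {V : Type*} [AddCommGroup V] [Module k V]
    [Module (MonoidAlgebra k (FreeGroup α)) V]
    [IsScalarTower k (MonoidAlgebra k (FreeGroup α)) V] (x : FreeGroup α) (v : V) :
    mulE (k := k) x v = (single x 1 : MonoidAlgebra k (FreeGroup α)) • v := rfl

theorem finite_ball [Finite α] [DecidableEq α] (n : ℕ) :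
    {f : FreeGroup α | f.norm ≤ n}.Finite := by
  have h := (List.finite_length_le (α × Bool) n).image FreeGroup.mk
  apply h.subset
  intro f hf
  exact ⟨f.toWord, hf, FreeGroup.mk_toWord⟩

section Lemma

variable {V : Type*} [AddCommGroup V] [Module k V]
    [Module (MonoidAlgebra k (FreeGroup α)) V]
    [IsScalarTower k (MonoidAlgebra k (FreeGroup α)) V]

/-- The finite-dimensional model of a module over the group algebra of a free group: the action
is unchanged on a given finite-dimensional submodule and on a large ball of translates of a given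
vector. -/
theorem exists_model [Finite α] [DecidableEq α] (q₀ : V)
    (W₀ : Submodule (MonoidAlgebra k (FreeGroup α)) V)
    (hW₀ : FiniteDimensional k (W₀.restrictScalars k)) (n : ℕ) :
    ∃ (W : Submodule k V) (_ : FiniteDimensional k W) (hq : q₀ ∈ W)
      (h0 : ∀ w ∈ W₀, w ∈ W) (ρ : FreeGroup α →* (W ≃ₗ[k] W)),
      (∀ f : FreeGroup α, f.norm ≤ n →
        (ρ f ⟨q₀, hq⟩ : V) = (single f 1 : MonoidAlgebra k (FreeGroup α)) • q₀) ∧
      (∀ (w : V) (hw : w ∈ W₀) (f : FreeGroup α),
        (ρ f ⟨w, h0 w hw⟩ : V) = (single f 1 : MonoidAlgebra k (FreeGroup α)) • w) := by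
  let S : Set V := (fun f : FreeGroup α => (single f 1 : MonoidAlgebra k (FreeGroup α)) • q₀) ''
    {f : FreeGroup α | f.norm ≤ n}
  have hS : S.Finite := (finite_ball n).image _
  let W : Submodule k V := Submodule.span k S ⊔ W₀.restrictScalars k
  have hfin1 : FiniteDimensional k (Submodule.span k S) := FiniteDimensional.span_of_finite k hS
  have hfin : FiniteDimensional k W := Submodule.finiteDimensional_sup _ _
  have hball : ∀ f : FreeGroup α, f.norm ≤ n →
      (single f 1 : MonoidAlgebra k (FreeGroup α)) • q₀ ∈ W := fun f hf =>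
    Submodule.mem_sup_left (Submodule.subset_span ⟨f, hf, rfl⟩)
  have hq : q₀ ∈ W := by
    have := hball 1 (by simp)
    rwa [← one_def, one_smul] at this
  have h0 : ∀ w ∈ W₀, w ∈ W := fun w hw => Submodule.mem_sup_right hw
  have hext : ∀ j : α, ∃ σ : W ≃ₗ[k] W, ∀ w : W,
      (single (FreeGroup.of j) 1 : MonoidAlgebra k (FreeGroup α)) • (w : V) ∈ W →
      (σ w : V) = (single (FreeGroup.of j) 1 : MonoidAlgebra k (FreeGroup α)) • (w : V) :=
    fun j => exists_extend_partial W (mulE (FreeGroup.of j))
  choose σ hσ using hext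
  let ρ : FreeGroup α →* (W ≃ₗ[k] W) := FreeGroup.lift σ
  -- one step of the action
  have hstep : ∀ (t : α × Bool) (w : W),
      (single (lval t) 1 : MonoidAlgebra k (FreeGroup α)) • (w : V) ∈ W →
      (ρ (lval t) w : V) = (single (lval t) 1 : MonoidAlgebra k (FreeGroup α)) • (w : V) := by
    rintro ⟨j, s⟩ w hw
    cases s
    · rw [lval_false] at hw ⊢
      have h1 : ρ (FreeGroup.of j)⁻¹ = (σ j)⁻¹ := by
        rw [map_inv]
        simp [ρ]
      rw [h1]
      have h2 : σ j ⟨_, hw⟩ = w := by
        apply Subtype.ext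
        rw [hσ j ⟨_, hw⟩]
        · change (single (FreeGroup.of j) 1 : MonoidAlgebra k (FreeGroup α)) •
            (single (FreeGroup.of j)⁻¹ 1 : MonoidAlgebra k (FreeGroup α)) • (w : V) = w
          rw [smul_smul, single_mul_single, mul_inv_cancel, one_mul, ← one_def, one_smul]
        · change (single (FreeGroup.of j) 1 : MonoidAlgebra k (FreeGroup α)) •
            (single (FreeGroup.of j)⁻¹ 1 : MonoidAlgebra k (FreeGroup α)) • (w : V) ∈ W
          rw [smul_smul, single_mul_single, mul_inv_cancel, one_mul, ← one_def, one_smul]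
          exact w.2
      have h3 : (σ j)⁻¹ w = ⟨_, hw⟩ := (σ j).symm_apply_eq.mpr h2.symm
      rw [h3]
    · rw [lval_true] at hw ⊢
      have h1 : ρ (FreeGroup.of j) = σ j := by simp [ρ]
      rw [h1]
      exact hσ j w hw
  refine ⟨W, hfin, hq, h0, ρ, ?_, ?_⟩
  · have main : ∀ l : List (α × Bool), l.length ≤ n →
        (ρ (FreeGroup.mk l) ⟨q₀, hq⟩ : V) =
          (single (FreeGroup.mk l) 1 : MonoidAlgebra k (FreeGroup α)) • q₀ := by
      intro l
      induction l with
      | nil =>
        intro _
        rw [← FreeGroup.one_eq_mk, map_one, ← one_def, one_smul]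
        rfl
      | cons t l ih =>
        intro hl
        simp only [List.length_cons] at hl
        have h1 : FreeGroup.mk (t :: l) = lval t * FreeGroup.mk l := rfl
        have h2 := ih (by omega)
        have h3 : (single (lval t) 1 : MonoidAlgebra k (FreeGroup α)) •
            ((ρ (FreeGroup.mk l) ⟨q₀, hq⟩ : W) : V) =
            (single (FreeGroup.mk (t :: l)) 1 : MonoidAlgebra k (FreeGroup α)) • q₀ := by
          rw [h2, smul_smul, single_mul_single, one_mul, ← h1]
        have h4 : (single (lval t) 1 : MonoidAlgebra k (FreeGroup α)) •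
            ((ρ (FreeGroup.mk l) ⟨q₀, hq⟩ : W) : V) ∈ W := by
          rw [h3]
          apply hball
          refine le_trans FreeGroup.norm_mk_le ?_
          simp only [List.length_cons]
          omega
        rw [h1, map_mul]
        change (ρ (lval t) (ρ (FreeGroup.mk l) ⟨q₀, hq⟩) : V) = _
        rw [hstep t _ h4, h3, h1]
    intro f hf
    have := main f.toWord hf
    rwa [FreeGroup.mk_toWord] at this
  · intro w hw f
    have main : ∀ l : List (α × Bool),
        (ρ (FreeGroup.mk l) ⟨w, h0 w hw⟩ : V) =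
          (single (FreeGroup.mk l) 1 : MonoidAlgebra k (FreeGroup α)) • w := by
      intro l
      induction l with
      | nil =>
        rw [← FreeGroup.one_eq_mk, map_one, ← one_def, one_smul]
        rfl
      | cons t l ih =>
        have h1 : FreeGroup.mk (t :: l) = lval t * FreeGroup.mk l := rfl
        have h3 : (single (lval t) 1 : MonoidAlgebra k (FreeGroup α)) •
            ((ρ (FreeGroup.mk l) ⟨w, h0 w hw⟩ : W) : V) =
            (single (FreeGroup.mk (t :: l)) 1 : MonoidAlgebra k (FreeGroup α)) • w := by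
          rw [ih, smul_smul, single_mul_single, one_mul, ← h1]
        have h4 : (single (lval t) 1 : MonoidAlgebra k (FreeGroup α)) •
            ((ρ (FreeGroup.mk l) ⟨w, h0 w hw⟩ : W) : V) ∈ W := by
          rw [h3]
          exact h0 _ (W₀.smul_mem _ hw)
        rw [h1, map_mul]
        change (ρ (lval t) (ρ (FreeGroup.mk l) ⟨w, h0 w hw⟩) : V) = _
        rw [hstep t _ h4, h3, h1]
    have := main f.toWord
    rwa [FreeGroup.mk_toWord] at this

end Lemma

section Main

/-- Reduction of the group algebra modulo a normal subgroup. -/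
noncomputable def piU (k : Type*) [Field k] {α : Type*} (U : Subgroup (FreeGroup α)) [U.Normal] :
    MonoidAlgebra k (FreeGroup α) →ₐ[k] MonoidAlgebra k (FreeGroup α ⧸ U) :=
  MonoidAlgebra.mapDomainAlgHom k k (QuotientGroup.mk' U)

theorem piU_single (U : Subgroup (FreeGroup α)) [U.Normal] (f : FreeGroup α) (c : k) :
    piU k U (single f c) = single (QuotientGroup.mk f) c := by
  simp [piU]

/-- A linear section of the reduction. -/
noncomputable def secU (k : Type*) [Field k] {α : Type*} (U : Subgroup (FreeGroup α)) [U.Normal] :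
    MonoidAlgebra k (FreeGroup α ⧸ U) →ₗ[k] MonoidAlgebra k (FreeGroup α) :=
  MonoidAlgebra.mapDomainLinearMap k k Quotient.out

theorem piU_secU (U : Subgroup (FreeGroup α)) [U.Normal] (x : MonoidAlgebra k (FreeGroup α ⧸ U)) :
    piU k U (secU k U x) = x := by
  have h : (piU k U).toLinearMap ∘ₗ secU k U = LinearMap.id := by
    apply MonoidAlgebra.lhom_ext'
    intro a
    apply LinearMap.ext
    intro c
    simp [secU, piU_single]
  exact LinearMap.congr_fun h x

theorem residual_main [Finite k] [Finite α] {ι : Type*} [Fintype ι]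
    (r : ι → MonoidAlgebra k (FreeGroup α))
    (hr : ∀ c : ι → MonoidAlgebra k (FreeGroup α), ∑ j, c j * r j = 0 → c = 0)
    (U : Subgroup (FreeGroup α)) [U.Normal] [U.FiniteIndex] :
    ∃ (U' : Subgroup (FreeGroup α)) (_ : U'.Normal), U'.FiniteIndex ∧ U' ≤ U ∧
      ∀ c : ι → MonoidAlgebra k (FreeGroup α), piU k U' (∑ j, c j * r j) = 0 →
        ∀ j, piU k U (c j) = 0 := by
  classical
  let θ : (ι → MonoidAlgebra k (FreeGroup α)) →ₗ[MonoidAlgebra k (FreeGroup α)]
      MonoidAlgebra k (FreeGroup α) :=
    { toFun := fun c => ∑ j, c j * r j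
      map_add' := fun c d => by
        simp only [Pi.add_apply, add_mul, Finset.sum_add_distrib]
      map_smul' := fun a c => by
        simp only [Pi.smul_apply, smul_eq_mul, mul_assoc, Finset.mul_sum, RingHom.id_apply] }
  let N : Submodule (MonoidAlgebra k (FreeGroup α)) (ι → MonoidAlgebra k (FreeGroup α)) :=
    { carrier := {c | ∀ j, piU k U (c j) = 0}
      add_mem' := fun {c d} hc hd j => by
        rw [Pi.add_apply, map_add, hc j, hd j, add_zero]
      zero_mem' := fun j => by simp
      smul_mem' := fun a c hc j => by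
        rw [Pi.smul_apply, smul_eq_mul, map_mul, hc j, mul_zero] }
  let I : Submodule (MonoidAlgebra k (FreeGroup α)) (MonoidAlgebra k (FreeGroup α)) := N.map θ
  let q : MonoidAlgebra k (FreeGroup α) →ₗ[MonoidAlgebra k (FreeGroup α)]
      (MonoidAlgebra k (FreeGroup α) ⧸ I) := I.mkQ
  let q₀ : MonoidAlgebra k (FreeGroup α) ⧸ I := q 1
  have hq₀ : ∀ x : MonoidAlgebra k (FreeGroup α), q x = x • q₀ := by
    intro x
    rw [← map_smul, smul_eq_mul, mul_one]
  let W₀ : Submodule (MonoidAlgebra k (FreeGroup α)) (MonoidAlgebra k (FreeGroup α) ⧸ I) :=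
    LinearMap.range (q ∘ₗ θ)
  have hW₀ : FiniteDimensional k (W₀.restrictScalars k) := by
    let h : (ι → MonoidAlgebra k (FreeGroup α ⧸ U)) →ₗ[k] (MonoidAlgebra k (FreeGroup α) ⧸ I) :=
      ((q ∘ₗ θ).restrictScalars k) ∘ₗ
        (LinearMap.pi fun j => secU k U ∘ₗ LinearMap.proj j)
    have hfin : Module.Finite k (MonoidAlgebra k (FreeGroup α ⧸ U)) :=
      Module.Finite.equiv (MonoidAlgebra.coeffLinearEquiv k).symm
    have hle : W₀.restrictScalars k ≤ LinearMap.range h := by
      rintro x ⟨c, rfl⟩
      refine ⟨fun j => piU k U (c j), ?_⟩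
      change q (θ fun j => secU k U (piU k U (c j))) = q (θ c)
      rw [← sub_eq_zero, ← map_sub, ← map_sub]
      rw [show q = I.mkQ from rfl, Submodule.mkQ_apply, Submodule.Quotient.mk_eq_zero]
      refine ⟨_, ?_, rfl⟩
      intro j
      rw [Pi.sub_apply, map_sub, piU_secU, sub_self]
    exact Submodule.finiteDimensional_of_le hle
  -- a ball containing the supports of all `r j`
  obtain ⟨n, hn⟩ : ∃ n : ℕ, ∀ j, ∀ f ∈ (r j).coeff.support, FreeGroup.norm f ≤ n := by
    have hfin : (⋃ j, ((r j).coeff.support : Set (FreeGroup α))).Finite :=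
      Set.finite_iUnion fun j => Finset.finite_toSet _
    obtain ⟨n, hn⟩ := (hfin.image FreeGroup.norm).bddAbove
    exact ⟨n, fun j f hf => hn ⟨f, Set.mem_iUnion.mpr ⟨j, hf⟩, rfl⟩⟩
  obtain ⟨W, hWfin, hqW, h0, ρ, hρ1, hρ2⟩ := exists_model q₀ W₀ hW₀ n
  let τ : Representation k (FreeGroup α) W :=
    { toFun := fun f => (ρ f).toLinearMap
      map_one' := by rw [map_one]; rfl
      map_mul' := fun f g => by rw [map_mul]; rfl }
  let A : MonoidAlgebra k (FreeGroup α) →ₐ[k] Module.End k W := τ.asAlgebraHom
  have hA : ∀ f c, A (single f c) = c • (ρ f).toLinearMap := fun f c => by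
    rw [show A = τ.asAlgebraHom from rfl, Representation.asAlgebraHom_single]
    rfl
  -- the action on `W₀`
  have hA0 : ∀ (x : MonoidAlgebra k (FreeGroup α)) (w) (hw : w ∈ W₀),
      (A x ⟨w, h0 w hw⟩ : MonoidAlgebra k (FreeGroup α) ⧸ I) = x • w := by
    intro x w hw
    induction x using MonoidAlgebra.induction_linear with
    | zero => simp
    | add x y hx hy =>
      rw [map_add, LinearMap.add_apply, add_smul, Submodule.coe_add, hx, hy]
    | single f c =>
      rw [hA, LinearMap.smul_apply, Submodule.coe_smul]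
      change c • (ρ f ⟨w, h0 w hw⟩ : MonoidAlgebra k (FreeGroup α) ⧸ I) = _
      rw [hρ2 w hw f, ← smul_assoc, MonoidAlgebra.smul_single, smul_eq_mul, mul_one]
  -- the action of `r j` on the base vector
  have hA1 : ∀ x : MonoidAlgebra k (FreeGroup α), (∀ f ∈ x.coeff.support, FreeGroup.norm f ≤ n) →
      (A x ⟨q₀, hqW⟩ : MonoidAlgebra k (FreeGroup α) ⧸ I) = x • q₀ := by
    intro x hx
    have hsum : x = ∑ f ∈ x.coeff.support, single f (x.coeff f) := by
      conv_lhs => rw [← MonoidAlgebra.sum_coeff_single x]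
      rfl
    conv_lhs => rw [hsum]
    conv_rhs => rw [hsum]
    rw [map_sum, LinearMap.sum_apply, Finset.sum_smul]
    rw [Submodule.coe_sum]
    refine Finset.sum_congr rfl fun f hf => ?_
    rw [hA, LinearMap.smul_apply, Submodule.coe_smul]
    change x.coeff f • (ρ f ⟨q₀, hqW⟩ : MonoidAlgebra k (FreeGroup α) ⧸ I) = _
    rw [hρ1 f (hx f hf), ← smul_assoc, MonoidAlgebra.smul_single, smul_eq_mul, mul_one]
  have hrW : ∀ j, q (r j) ∈ W₀ := by
    intro j
    refine ⟨Pi.single j 1, ?_⟩
    change q (∑ i, (Pi.single j 1 : ι → MonoidAlgebra k (FreeGroup α)) i * r i) = q (r j)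
    congr 1
    rw [Finset.sum_eq_single j]
    · rw [Pi.single_eq_same, one_mul]
    · intro i _ hi
      rw [Pi.single_eq_of_ne hi, zero_mul]
    · intro h; exact absurd (Finset.mem_univ _) h
  have hAθ : ∀ c : ι → MonoidAlgebra k (FreeGroup α),
      (A (θ c) ⟨q₀, hqW⟩ : MonoidAlgebra k (FreeGroup α) ⧸ I) = q (θ c) := by
    intro c
    change ((A (∑ j, c j * r j)) ⟨q₀, hqW⟩ : MonoidAlgebra k (FreeGroup α) ⧸ I) =
      q (∑ j, c j * r j)
    rw [map_sum, map_sum, LinearMap.sum_apply, Submodule.coe_sum]
    refine Finset.sum_congr rfl fun j _ => ?_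
    rw [map_mul, Module.End.mul_apply]
    have e1 : A (r j) ⟨q₀, hqW⟩ = ⟨q (r j), h0 _ (hrW j)⟩ := by
      apply Subtype.ext
      rw [hA1 (r j) (hn j), ← hq₀]
    rw [e1, hA0 (c j) _ (hrW j), ← map_smul, smul_eq_mul]
  -- the kernel of the finite representation
  have hWfinite : Finite W := Module.finite_of_finite k
  have hend : Finite (W ≃ₗ[k] W) := DFunLike.finite _
  refine ⟨ρ.ker ⊓ U, inferInstance, inferInstance, inf_le_right, ?_⟩
  intro c hc
  have hfac : ∀ x : MonoidAlgebra k (FreeGroup α), piU k (ρ.ker ⊓ U) x = 0 → A x = 0 := by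
    let ρ' : (FreeGroup α ⧸ (ρ.ker ⊓ U)) →* Module.End k W :=
      QuotientGroup.lift (ρ.ker ⊓ U) τ (by
        intro f hf
        have h1 : ρ f = 1 := hf.1
        change (ρ f).toLinearMap = 1
        rw [h1]; rfl)
    let A' : MonoidAlgebra k (FreeGroup α ⧸ (ρ.ker ⊓ U)) →ₐ[k] Module.End k W :=
      MonoidAlgebra.lift k _ _ ρ'
    have hcomp : ∀ x, A x = A' (piU k (ρ.ker ⊓ U) x) := by
      intro x
      induction x using MonoidAlgebra.induction_linear with
      | zero => simp
      | add x y hx hy => rw [map_add, map_add, map_add, hx, hy]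
      | single f c =>
        rw [hA, piU_single, show A' = MonoidAlgebra.lift k _ _ ρ' from rfl,
          MonoidAlgebra.lift_single]
        rfl
    intro x hx
    rw [hcomp, hx, map_zero]
  have h1 := hfac _ hc
  have h2 : q (θ c) = 0 := by
    rw [← hAθ c]
    change ((A (∑ j, c j * r j)) ⟨q₀, hqW⟩ : MonoidAlgebra k (FreeGroup α) ⧸ I) = 0
    rw [h1]
    rfl
  rw [show q = I.mkQ from rfl, Submodule.mkQ_apply, Submodule.Quotient.mk_eq_zero] at h2
  obtain ⟨d, hd, hdc⟩ := h2
  have h3 : c - d = 0 := by
    apply hr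
    have : θ (c - d) = 0 := by rw [map_sub, hdc, sub_self]
    exact this
  rw [sub_eq_zero] at h3
  rw [h3]
  exact hd

end Main

end Pool.Agent.Lib.MP_f46d86_al
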