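import Mathlib
import Pool.Agent.Lib.MP_f46d86_al.Cut

/-!
# A function with finite coboundary invariant under `g` puts `g` in a proper free factor
-/

set_option autoImplicit false

namespace Pool.Agent.Lib.MP_f46d86_al

variable {α : Type*} {κ : Type*}

/-- There is a nonconstant function with finite coboundary which is invariant under right
multiplication by `g`. -/
def HasCut (κ : Type*) {G : Type*} [Group G] (g : G) : Prop :=
  ∃ b : G → κ, (∀ h, {v | b (v * h) ≠ b v}.Finite) ∧ (∀ v, b (v * g) = b v) ∧ ∃ u v, b u ≠ b v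

theorem HasCut.map {G H : Type*} [Group G] [Group H] (e : G ≃* H) {g : G} (hg : HasCut κ g) :
    HasCut κ (e g) := by
  obtain ⟨b, h1, h2, u, v, h3⟩ := hg
  refine ⟨fun x => b (e.symm x), ?_, ?_, e u, e v, ?_⟩
  · intro h
    have := (h1 (e.symm h)).image e
    apply this.subset
    intro x hx
    refine ⟨e.symm x, ?_, by simp⟩
    change b (e.symm x * e.symm h) ≠ b (e.symm x)
    rw [← map_mul]
    exact hx
  · intro x
    change b (e.symm (x * e g)) = b (e.symm x)
    rw [map_mul, MulEquiv.symm_apply_apply, h2]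
  · simpa using h3

theorem HasCut.conj {G : Type*} [Group G] {g h : G} (hc : IsConj g h) (hg : HasCut κ g) :
    HasCut κ h := by
  obtain ⟨c, hc⟩ := isConj_iff.mp hc
  have := hg.map (MulAut.conj c)
  rwa [MulAut.conj_apply, hc] at this

section NoMixed

variable {y : ℕ → α × Bool} {L : ℕ} {P : Set (α × Bool)}

theorem letter_eq (t s : α × Bool) (h : t.1 = s.1) : t = s ∨ t = linv s := by
  obtain ⟨t1, t2⟩ := t
  obtain ⟨s1, s2⟩ := s
  simp only at h
  subst h
  cases t2 <;> cases s2 <;> simp [linv]

/-- If no turn joins `P` to its complement, the word can be shortened. -/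
theorem shorten_of_no_mixed (hL : 0 < L) (hper : ∀ i, y (i + L) = y i)
    (hred : ∀ i, y (i + 1) ≠ linv (y i)) (hall : ∀ a, ∃ i, (y i).1 = a)
    {p q : α × Bool} (hp : p ∈ P) (hq : q ∉ P)
    (hno : ∀ i, linv (y i) ∈ P ↔ y (i + 1) ∈ P) :
    ∃ (ψ : FreeGroup α ≃* FreeGroup α) (w : List (α × Bool)), w.length < L ∧
      IsConj (((List.range L).map (fun i => lval (y i))).prod) (ψ (FreeGroup.mk w)) := by
  by_cases hinv : ∀ t ∈ P, linv t ∈ P
  · exfalso
    have hiff : ∀ t, t ∈ P ↔ linv t ∈ P := fun t =>
      ⟨hinv t, fun h => by have := hinv _ h; rwa [linv_linv] at this⟩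
    have hstep : ∀ i, y i ∈ P ↔ y (i + 1) ∈ P := fun i => (hiff _).trans (hno i)
    have hall0 : ∀ i, y i ∈ P ↔ y 0 ∈ P := by
      intro i
      induction i with
      | zero => rfl
      | succ i ih => rw [← hstep, ih]
    obtain ⟨i, hi⟩ := hall p.1
    have hyi : y i ∈ P := by
      rcases letter_eq _ _ hi with h | h
      · rw [h]; exact hp
      · rw [h]; exact hinv p hp
    obtain ⟨j, hj⟩ := hall q.1
    have hyj : y j ∈ P := (hall0 j).mpr ((hall0 i).mp hyi)
    rcases letter_eq _ _ hj with h | h
    · rw [h] at hyj; exact hq hyj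
    · rw [h, ← hiff] at hyj; exact hq hyj
  · push Not at hinv
    obtain ⟨a, haP, haP'⟩ := hinv
    refine shorten (P := P \ {a}) (a := a) L hL hper (fun h => h.2 rfl) (fun h => haP' h.1)
      ?_ ?_ ?_
    · intro i h1 h2
      by_contra hne
      exact h2 ⟨(hno i).mp h1.1, hne⟩
    · intro i h1 h2
      by_contra hne
      exact h2 ⟨(hno i).mpr h1.1, hne⟩
    · obtain ⟨i, hi⟩ := hall a.1
      rcases letter_eq _ _ hi with h | h
      · refine ⟨i + L - 1, ?_⟩
        have e1 : i + L - 1 + 1 = i + L := by omega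
        have e2 : y (i + L - 1 + 1) = a := by rw [e1, hper, h]
        have h3 : linv (y (i + L - 1)) ∈ P := (hno _).mpr (by rw [e2]; exact haP)
        have h4 : linv (y (i + L - 1)) ≠ a := by
          intro h5
          apply hred (i + L - 1)
          rw [e2, h5]
        intro h5
        have h6 := h5.mp ⟨h3, h4⟩
        rw [e2] at h6
        exact h6.2 rfl
      · refine ⟨i, ?_⟩
        have e2 : linv (y i) = a := by rw [h, linv_linv]
        have h3 : y (i + 1) ∈ P := (hno i).mp (by rw [e2]; exact haP)
        have h4 : y (i + 1) ≠ a := by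
          intro h5
          apply hred i
          rw [h5, e2]
        intro h5
        have h6 := h5.mpr ⟨h3, h4⟩
        rw [e2] at h6
        exact h6.2 rfl

/-- A coloured cut allows to shorten the word. -/
theorem shorten_of_cut (hL : 0 < L) (hper : ∀ i, y (i + L) = y i)
    (hred : ∀ i, y (i + 1) ≠ linv (y i)) (hall : ∀ a, ∃ i, (y i).1 = a)
    (e : Option (α × Bool)) (k : α × Bool → κ)
    (hk : ∀ i, some (linv (y i)) ≠ e → some (y (i + 1)) ≠ e → k (linv (y i)) = k (y (i + 1)))
    (hpq : ∃ p q, some p ≠ e ∧ some q ≠ e ∧ k p ≠ k q) :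
    ∃ (ψ : FreeGroup α ≃* FreeGroup α) (w : List (α × Bool)), w.length < L ∧
      IsConj (((List.range L).map (fun i => lval (y i))).prod) (ψ (FreeGroup.mk w)) := by
  obtain ⟨p, q, hp, hq, hne⟩ := hpq
  cases e with
  | none =>
    refine shorten_of_no_mixed (P := {t | k t = k p}) (p := p) (q := q) hL hper hred hall rfl
      (fun h => hne h.symm) ?_
    intro i
    have h := hk i (by simp) (by simp)
    change k _ = k p ↔ k _ = k p
    rw [h]
  | some a =>
    obtain ⟨p₀, hp₀, hkp₀⟩ : ∃ p₀, p₀ ≠ a ∧ k p₀ ≠ k (linv a) := by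
      by_cases h : k p = k (linv a)
      · exact ⟨q, fun h' => hq (by rw [h']), fun h' => hne (by rw [h, h'])⟩
      · exact ⟨p, fun h' => hp (by rw [h']), h⟩
    let P : Set (α × Bool) := {t | t ≠ a ∧ k t = k p₀}
    have ha : a ∉ P := fun h => h.1 rfl
    have ha' : linv a ∉ P := fun h => hkp₀ h.2.symm
    have hp₀P : p₀ ∈ P := ⟨hp₀, rfl⟩
    have h1 : ∀ i, linv (y i) ∈ P → y (i + 1) ∉ P → y (i + 1) = a := by
      intro i h1 h2
      by_contra hne'
      have h3 := hk i (by simpa using h1.1) (by simpa using hne')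
      exact h2 ⟨hne', by rw [← h3]; exact h1.2⟩
    have h2 : ∀ i, y (i + 1) ∈ P → linv (y i) ∉ P → linv (y i) = a := by
      intro i h1 h2
      by_contra hne'
      have h3 := hk i (by simpa using hne') (by simpa using h1.1)
      exact h2 ⟨hne', by rw [h3]; exact h1.2⟩
    by_cases hmix : ∃ i, ¬ (linv (y i) ∈ P ↔ y (i + 1) ∈ P)
    · exact shorten L hL hper ha ha' h1 h2 hmix
    · push Not at hmix
      exact shorten_of_no_mixed (P := P) (p := p₀) (q := a) hL hper hred hall hp₀P ha hmix

end NoMixed

theorem mk_mem_without (a : α) (w : List (α × Bool)) (hw : ∀ t ∈ w, t.1 ≠ a) :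
    FreeGroup.mk w ∈ without a := by
  induction w with
  | nil => rw [← FreeGroup.one_eq_mk]; exact one_mem _
  | cons t w ih =>
    have h1 : FreeGroup.mk (t :: w) = lval t * FreeGroup.mk w := rfl
    rw [h1]
    refine mul_mem ?_ (ih fun s hs => hw s (List.mem_cons_of_mem _ hs))
    have ht : t.1 ≠ a := hw t (List.mem_cons_self ..)
    obtain ⟨j, s⟩ := t
    have hj : FreeGroup.of j ∈ without a := Subgroup.subset_closure ⟨j, ht, rfl⟩
    cases s
    · rw [lval_false]; exact inv_mem hj
    · rw [lval_true]; exact hj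

/-- **Whitehead's lemma in the form used here.** If a nonconstant function with finite coboundary
on a free group of finite rank is invariant under `g`, then `g` lies in a proper free factor. -/
theorem inProperFreeFactor_of_hasCut [Finite α] {g : FreeGroup α} (hg : HasCut κ g) :
    InProperFreeFactor g := by
  classical
  -- the alphabet is nonempty
  have hne : Nonempty α := by
    by_contra hemp
    rw [not_nonempty_iff] at hemp
    obtain ⟨b, -, -, u, v, huv⟩ := hg
    exact huv (congrArg b (Subsingleton.elim u v))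
  -- a shortest cyclic word representing `g` in some basis
  let Q : ℕ → Prop := fun n => ∃ (φ : FreeGroup α ≃* FreeGroup α) (w : List (α × Bool)),
    w.length = n ∧ IsConj (φ g) (FreeGroup.mk w)
  have hQ : ∃ n, Q n := ⟨g.toWord.length, MulEquiv.refl _, g.toWord, rfl, by
    rw [FreeGroup.mk_toWord]; exact IsConj.refl _⟩
  obtain ⟨φ, w₀, hw₀, hconj₀⟩ := Nat.find_spec hQ
  have hmin : ∀ m, Q m → Nat.find hQ ≤ m := fun m hm => Nat.find_min' hQ hm
  set n := Nat.find hQ with hn
  -- make it cyclically reduced
  obtain ⟨w, hw, hconj, hcyc⟩ : ∃ w : List (α × Bool), w.length = n ∧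
      IsConj (φ g) (FreeGroup.mk w) ∧ FreeGroup.IsCyclicallyReduced w := by
    have hred : FreeGroup.IsReduced (FreeGroup.mk w₀).toWord := FreeGroup.isReduced_toWord
    have h1 := FreeGroup.reduceCyclically.conj_conjugator_reduceCyclically
      (FreeGroup.mk w₀).toWord
    have hc : IsConj (FreeGroup.mk w₀)
        (FreeGroup.mk (FreeGroup.reduceCyclically (FreeGroup.mk w₀).toWord)) := by
      rw [isConj_comm, isConj_iff]
      refine ⟨FreeGroup.mk (FreeGroup.reduceCyclically.conjugator (FreeGroup.mk w₀).toWord), ?_⟩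
      rw [FreeGroup.inv_mk, FreeGroup.mul_mk, FreeGroup.mul_mk, h1, FreeGroup.mk_toWord]
    refine ⟨_, ?_, hconj₀.trans hc, FreeGroup.reduceCyclically.isCyclicallyReduced hred⟩
    have hle : (FreeGroup.reduceCyclically (FreeGroup.mk w₀).toWord).length ≤ n := by
      have h2 := congrArg List.length h1
      simp only [List.length_append] at h2
      have h3 : (FreeGroup.mk w₀).toWord.length ≤ w₀.length := FreeGroup.norm_mk_le
      omega
    exact le_antisymm hle (hmin _ ⟨φ, _, rfl, hconj₀.trans hc⟩)
  -- transfer the conclusion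
  apply InProperFreeFactor.of_map φ
  apply InProperFreeFactor.conj hconj.symm
  -- if a generator does not occur we are done
  by_cases hmiss : ∃ a : α, ∀ t ∈ w, t.1 ≠ a
  · obtain ⟨a, ha⟩ := hmiss
    exact ⟨without a, isFreeFactor_without a, without_ne_top a, mk_mem_without a w ha⟩
  exfalso
  push Not at hmiss
  have hL : 0 < w.length := by
    obtain ⟨a⟩ := hne
    obtain ⟨t, ht, -⟩ := hmiss a
    exact List.length_pos_of_mem ht
  let y : ℕ → α × Bool := fun i => w[i % w.length]'(Nat.mod_lt _ hL)
  have hper : ∀ i, y (i + w.length) = y i := by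
    intro i
    simp only [y, Nat.add_mod_right]
  have hred : ∀ i, y (i + 1) ≠ linv (y i) := by
    intro i
    have hj : i % w.length < w.length := Nat.mod_lt _ hL
    by_cases hj1 : i % w.length + 1 < w.length
    · have e1 : (i + 1) % w.length = i % w.length + 1 := by
        rw [Nat.add_mod, Nat.mod_eq_of_lt (show 1 < w.length by omega)]
        exact Nat.mod_eq_of_lt hj1
      have hch := hcyc.1
      unfold FreeGroup.IsReduced at hch
      rw [List.isChain_iff_getElem] at hch
      have h2 := hch (i % w.length) hj1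
      intro h3
      simp only [y, e1] at h3
      rw [h3] at h2
      have h4 := h2 rfl
      simp [linv] at h4
    · have e0 : i % w.length + 1 = w.length := by omega
      have e1 : (i + 1) % w.length = 0 := by
        by_cases hone : w.length = 1
        · rw [hone, Nat.mod_one]
        · rw [Nat.add_mod, Nat.mod_eq_of_lt (show 1 < w.length by omega), e0, Nat.mod_self]
      have h2 := hcyc.2 (y i) (by
        simp only [y]
        rw [Option.mem_def, List.getLast?_eq_getElem?, List.getElem?_eq_getElem (by omega)]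
        congr 2
        omega) (y (i + 1)) (by
        simp only [y, e1]
        rw [Option.mem_def, List.head?_eq_getElem?, List.getElem?_eq_getElem hL])
      intro h3
      rw [h3] at h2
      have h4 := h2 rfl
      simp [linv] at h4
  have hword : prodTo y w.length = FreeGroup.mk w := by
    rw [prodTo_eq]
    congr 1
    apply List.ext_getElem
    · rw [length_seg]
    · intro i h1 h2
      simp only [seg, y, List.getElem_map, List.getElem_range, zero_add, Nat.mod_eq_of_lt h2]
  have hall : ∀ a, ∃ i, (y i).1 = a := by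
    intro a
    obtain ⟨t, ht, hta⟩ := hmiss a
    obtain ⟨i, hi, hit⟩ := List.mem_iff_getElem.mp ht
    refine ⟨i, ?_⟩
    simp only [y, Nat.mod_eq_of_lt hi, hit]
    exact hta
  -- the cut for the word
  obtain ⟨b, hb1, hb2, hb3⟩ := (hg.map φ).conj hconj
  obtain ⟨e, k, hk, hpq⟩ := exists_cut b hb1 y w.length hL hper hred
    (fun v => by rw [hword]; exact hb2 v) hb3
  obtain ⟨ψ, w', hw', hconj'⟩ := shorten_of_cut hL hper hred hall e k hk hpq
  have h1 : IsConj (φ g) (ψ (FreeGroup.mk w')) := by
    refine hconj.trans ?_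
    rw [← hword]
    exact hconj'
  have h2 : IsConj ((φ.trans ψ.symm) g) (FreeGroup.mk w') := by
    obtain ⟨c, hc⟩ := isConj_iff.mp h1
    rw [isConj_iff]
    refine ⟨ψ.symm c, ?_⟩
    have := congrArg ψ.symm hc
    rw [map_mul, map_mul, map_inv, MulEquiv.symm_apply_apply] at this
    exact this
  have := hmin _ ⟨φ.trans ψ.symm, w', rfl, h2⟩
  omega

end Pool.Agent.Lib.MP_f46d86_al
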