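import Mathlib
import Pool.Agent.Lib.MP_f46d86_al.Residual
import Pool.Agent.Lib.MP_f46d86_al.Whitehead

/-!
# Fox calculus and the dichotomy
-/

set_option autoImplicit false

namespace Pool.Agent.Lib.MP_f46d86_al

open MonoidAlgebra

/-- A (right) derivation on a group with values in a ring into which the group maps. -/
def IsRDer {G S : Type*} [Group G] [Ring S] (u : G →* S) (D : G → S) : Prop :=
  ∀ x y, D (x * y) = D x * u y + D y

section RDer

variable {G S : Type*} [Group G] [Ring S] {u : G →* S} {D D' : G → S}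

theorem IsRDer.one (hD : IsRDer u D) : D 1 = 0 := by
  have h := hD 1 1
  rw [mul_one, map_one, mul_one] at h
  simpa using h

theorem u_mul_inv (u : G →* S) (x : G) : u x * u x⁻¹ = 1 := by
  rw [← map_mul, mul_inv_cancel, map_one]

theorem u_inv_mul (u : G →* S) (x : G) : u x⁻¹ * u x = 1 := by
  rw [← map_mul, inv_mul_cancel, map_one]

theorem IsRDer.inv (hD : IsRDer u D) (x : G) : D x⁻¹ = - (D x * u x⁻¹) := by
  have h := hD x x⁻¹
  rw [mul_inv_cancel, hD.one] at h
  exact eq_neg_of_add_eq_zero_right h.symm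

end RDer

section Free

variable {α S : Type*} [Ring S]

theorem IsRDer.ext {u : FreeGroup α →* S} {D D' : FreeGroup α → S} (hD : IsRDer u D)
    (hD' : IsRDer u D') (h : ∀ j, D (FreeGroup.of j) = D' (FreeGroup.of j)) (x : FreeGroup α) :
    D x = D' x := by
  induction x using FreeGroup.induction_on with
  | C1 => rw [hD.one, hD'.one]
  | of j => exact h j
  | inv_of j _ => rw [hD.inv, hD'.inv, h j]
  | mul x y hx hy => rw [hD, hD', hx, hy]

/-- There is a derivation with given values on the generators. -/
theorem exists_rder (u : FreeGroup α →* S) (c : α → S) :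
    ∃ D : FreeGroup α → S, IsRDer u D ∧ ∀ j, D (FreeGroup.of j) = c j := by
  let P : α → Equiv.Perm S := fun j =>
    { toFun := fun v => (v - c j) * u (FreeGroup.of j)⁻¹
      invFun := fun v => v * u (FreeGroup.of j) + c j
      left_inv := fun v => by
        change (v - c j) * u (FreeGroup.of j)⁻¹ * u (FreeGroup.of j) + c j = v
        rw [mul_assoc, u_inv_mul, mul_one, sub_add_cancel]
      right_inv := fun v => by
        change (v * u (FreeGroup.of j) + c j - c j) * u (FreeGroup.of j)⁻¹ = v
        rw [add_sub_cancel_right, mul_assoc, u_mul_inv, mul_one] }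
  let A : FreeGroup α →* Equiv.Perm S := FreeGroup.lift P
  have key : ∀ (f : FreeGroup α) (v : S), A f⁻¹ v = v * u f + A f⁻¹ 0 := by
    intro f
    induction f using FreeGroup.induction_on with
    | C1 => intro v; simp
    | of j =>
      intro v
      have h : A (FreeGroup.of j)⁻¹ = (P j)⁻¹ := by simp [A]
      rw [h]
      change v * u (FreeGroup.of j) + c j = v * u (FreeGroup.of j) +
        (0 * u (FreeGroup.of j) + c j)
      rw [zero_mul, zero_add]
    | inv_of j _ =>
      intro v
      have h : A (FreeGroup.of j)⁻¹⁻¹ = P j := by simp [A]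
      rw [h]
      change (v - c j) * u (FreeGroup.of j)⁻¹ = v * u (FreeGroup.of j)⁻¹ +
        (0 - c j) * u (FreeGroup.of j)⁻¹
      rw [← add_mul]; congr 1; abel
    | mul x y hx hy =>
      intro v
      rw [mul_inv_rev, map_mul, Equiv.Perm.mul_apply, Equiv.Perm.mul_apply, hx v, hy (v * u x + _),
        hy (A x⁻¹ 0), map_mul, add_mul, mul_assoc, add_assoc]
  refine ⟨fun f => A f⁻¹ 0, ?_, ?_⟩
  · intro x y
    change A (x * y)⁻¹ 0 = A x⁻¹ 0 * u y + A y⁻¹ 0
    rw [mul_inv_rev, map_mul, Equiv.Perm.mul_apply, key y]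
  · intro j
    have h : A (FreeGroup.of j)⁻¹ = (P j)⁻¹ := by simp [A]
    change A (FreeGroup.of j)⁻¹ 0 = c j
    rw [h]
    change 0 * u (FreeGroup.of j) + c j = c j
    rw [zero_mul, zero_add]

end Free

section Fox

variable {k : Type*} [Field k] {α : Type*}

/-- The free Fox derivatives exist. -/
theorem exists_fox (k : Type*) [Field k] (α : Type*) [DecidableEq α] :
    ∃ fox : α → FreeGroup α → MonoidAlgebra k (FreeGroup α),
      (∀ j, IsRDer (MonoidAlgebra.of k (FreeGroup α)) (fox j)) ∧
      ∀ i j, fox j (FreeGroup.of i) = if i = j then 1 else 0 := by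
  have h : ∀ j : α, ∃ D : FreeGroup α → MonoidAlgebra k (FreeGroup α),
      IsRDer (MonoidAlgebra.of k (FreeGroup α)) D ∧
      ∀ i, D (FreeGroup.of i) = if i = j then 1 else 0 := fun j =>
    exists_rder (MonoidAlgebra.of k (FreeGroup α)) fun i => if i = j then 1 else 0
  choose fox h1 h2 using h
  exact ⟨fox, h1, fun i j => h2 j i⟩

/-- The fundamental formula of Fox calculus. -/
theorem fox_formula [Fintype α] [DecidableEq α] {S : Type*} [Ring S]
    {fox : α → FreeGroup α → MonoidAlgebra k (FreeGroup α)}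
    (h1 : ∀ j, IsRDer (MonoidAlgebra.of k (FreeGroup α)) (fox j))
    (h2 : ∀ i j, fox j (FreeGroup.of i) = if i = j then 1 else 0)
    (π : MonoidAlgebra k (FreeGroup α) →+* S) (u : FreeGroup α →* S)
    (hu : ∀ x, u x = π (MonoidAlgebra.of k (FreeGroup α) x))
    {D : FreeGroup α → S} (hD : IsRDer u D) (x : FreeGroup α) :
    D x = ∑ j, D (FreeGroup.of j) * π (fox j x) := by
  refine IsRDer.ext (u := u) (D' := fun x => ∑ j, D (FreeGroup.of j) * π (fox j x)) hD ?_ ?_ x
  · intro x y
    simp only
    rw [Finset.sum_mul, ← Finset.sum_add_distrib]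
    refine Finset.sum_congr rfl fun j _ => ?_
    rw [h1 j x y, map_add, map_mul, ← hu, mul_add, mul_assoc]
  · intro i
    rw [Finset.sum_eq_single i]
    · rw [h2, if_pos rfl, map_one, mul_one]
    · intro j _ hj
      rw [h2, if_neg (Ne.symm hj), map_zero, mul_zero]
    · intro h; exact absurd (Finset.mem_univ _) h

theorem isRDer_sum [Fintype α] {fox : α → FreeGroup α → MonoidAlgebra k (FreeGroup α)}
    (h1 : ∀ j, IsRDer (MonoidAlgebra.of k (FreeGroup α)) (fox j))
    (c : α → MonoidAlgebra k (FreeGroup α)) :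
    IsRDer (MonoidAlgebra.of k (FreeGroup α)) (fun x => ∑ j, c j * fox j x) := by
  intro x y
  simp only
  rw [Finset.sum_mul, ← Finset.sum_add_distrib]
  refine Finset.sum_congr rfl fun j _ => ?_
  rw [h1 j x y, mul_add, mul_assoc]

/-- A nonzero derivation into the group algebra which kills `g` gives a cut. -/
theorem hasCut_of_rder {D : FreeGroup α → MonoidAlgebra k (FreeGroup α)}
    (hD : IsRDer (MonoidAlgebra.of k (FreeGroup α)) D) {g : FreeGroup α} (hg : D g = 0)
    {f : FreeGroup α} (hf : D f ≠ 0) : HasCut k g := by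
  have hstep : ∀ v h : FreeGroup α, (D (v * h)⁻¹).coeff 1 = (D h⁻¹).coeff v + (D v⁻¹).coeff 1 := by
    intro v h
    rw [mul_inv_rev, hD, MonoidAlgebra.of_apply, MonoidAlgebra.coeff_add, Finsupp.add_apply]
    congr 1
    have := MonoidAlgebra.coeff_mul_single_apply (D h⁻¹) (1 : k) v⁻¹ 1
    rw [this]
    simp
  refine ⟨fun v => (D v⁻¹).coeff 1, ?_, ?_, ?_⟩
  · intro h
    apply (Finset.finite_toSet (D h⁻¹).coeff.support).subset
    intro v hv
    change (D (v * h)⁻¹).coeff 1 ≠ (D v⁻¹).coeff 1 at hv
    rw [hstep] at hv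
    rw [Finset.mem_coe, Finsupp.mem_support_iff]
    intro h0
    apply hv
    rw [h0, zero_add]
  · intro v
    change (D (v * g)⁻¹).coeff 1 = (D v⁻¹).coeff 1
    rw [hstep, hD.inv, hg, zero_mul, neg_zero]
    simp
  · have : ∃ v, (D f).coeff v ≠ 0 := by
      by_contra hcon
      push Not at hcon
      apply hf
      ext v
      rw [hcon v]
      simp
    obtain ⟨v, hv⟩ := this
    refine ⟨v * f⁻¹, v, ?_⟩
    change (D (v * f⁻¹)⁻¹).coeff 1 ≠ (D v⁻¹).coeff 1
    rw [hstep, inv_inv]
    intro h
    apply hv
    simpa using h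

/-- The projection between two finite quotients, on group algebras. -/
noncomputable def push (k : Type*) [Field k] {α : Type*} {U' U : Subgroup (FreeGroup α)}
    [U'.Normal] [U.Normal] (h : U' ≤ U) :
    MonoidAlgebra k (FreeGroup α ⧸ U') →ₐ[k] MonoidAlgebra k (FreeGroup α ⧸ U) :=
  MonoidAlgebra.mapDomainAlgHom k k (QuotientGroup.map U' U (MonoidHom.id _) h)

theorem push_piU {U' U : Subgroup (FreeGroup α)} [U'.Normal] [U.Normal] (h : U' ≤ U)
    (x : MonoidAlgebra k (FreeGroup α)) : push k h (piU k U' x) = piU k U x := by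
  induction x using MonoidAlgebra.induction_linear with
  | zero => simp
  | add x y hx hy => rw [map_add, map_add, map_add, hx, hy]
  | single f c =>
    rw [piU_single, piU_single, push, MonoidAlgebra.mapDomainAlgHom_apply,
      MonoidAlgebra.mapDomain_single]
    rfl

/-- The group homomorphism into the group algebra of a quotient. -/
noncomputable def quotOf (k : Type*) [Field k] {α : Type*} (U : Subgroup (FreeGroup α))
    [U.Normal] : FreeGroup α →* MonoidAlgebra k (FreeGroup α ⧸ U) :=
  (MonoidAlgebra.of k (FreeGroup α ⧸ U)).comp (QuotientGroup.mk' U)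

/-- **Dichotomy.** Either there is a cut for `g`, or all derivations with values in the group
algebra of a deep finite quotient which kill `g` vanish after projection to a given finite
quotient. -/
theorem dichotomy [Finite k] [Finite α] (g : FreeGroup α) (U : Subgroup (FreeGroup α)) [U.Normal]
    [U.FiniteIndex] :
    HasCut k g ∨ ∃ (U' : Subgroup (FreeGroup α)) (_ : U'.Normal) (hle : U' ≤ U),
      U'.FiniteIndex ∧ ∀ D : FreeGroup α → MonoidAlgebra k (FreeGroup α ⧸ U'),
        IsRDer (quotOf k U') D → D g = 0 → ∀ x, push k hle (D x) = 0 := by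
  classical
  have := Fintype.ofFinite α
  obtain ⟨fox, h1, h2⟩ := exists_fox k α
  by_cases hinj : ∀ c : α → MonoidAlgebra k (FreeGroup α), ∑ j, c j * fox j g = 0 → c = 0
  · right
    obtain ⟨U', hU'n, hU'f, hle, hU'⟩ := residual_main (fun j => fox j g) hinj U
    refine ⟨U', hU'n, hle, hU'f, ?_⟩
    intro D hD hDg
    have e0 : piU k U' (∑ j, secU k U' (D (FreeGroup.of j)) * fox j g) = 0 := by
      rw [map_sum, ← hDg, fox_formula h1 h2 (piU k U').toRingHom (quotOf k U') (fun x => by
        simp [quotOf, piU]) hD g]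
      refine Finset.sum_congr rfl fun j _ => ?_
      rw [map_mul, piU_secU]
      rfl
    have e1 := hU' _ e0
    have e2 : ∀ j, push k hle (D (FreeGroup.of j)) = 0 := by
      intro j
      rw [← piU_secU U' (D (FreeGroup.of j)), push_piU]
      exact e1 j
    have e3 : IsRDer (quotOf k U) (fun x => push k hle (D x)) := by
      intro x y
      simp only
      rw [hD, map_add, map_mul]
      congr 2
      simp only [quotOf, push, MonoidHom.comp_apply, MonoidAlgebra.of_apply,
        MonoidAlgebra.mapDomainAlgHom_apply, MonoidAlgebra.mapDomain_single]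
      rfl
    have e4 : IsRDer (quotOf k U) (fun _ => (0 : MonoidAlgebra k (FreeGroup α ⧸ U))) := by
      intro x y; simp
    exact fun x => e3.ext e4 e2 x
  · left
    push Not at hinj
    obtain ⟨c, hc, hc0⟩ := hinj
    have : ∃ i, c i ≠ 0 := by
      by_contra hcon
      push Not at hcon
      exact hc0 (funext hcon)
    obtain ⟨i, hi⟩ := this
    refine hasCut_of_rder (isRDer_sum h1 c) hc (f := FreeGroup.of i) ?_
    rw [Finset.sum_eq_single i]
    · rw [h2, if_pos rfl, mul_one]; exact hi
    · intro j _ hj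
      rw [h2, if_neg (Ne.symm hj), mul_zero]
    · intro h; exact absurd (Finset.mem_univ _) h

end Fox

end Pool.Agent.Lib.MP_f46d86_al
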