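import Mathlib
import Pool.Agent.Lib.MP_f46d86_al.Piles

/-!
# From a profinite pile to finite piles with two orbits, and embedding problems
-/

set_option autoImplicit false

namespace Pool.Agent.Lib.MP_f46d86_al

section Top

variable {G T : Type*} [Group G] [TopologicalSpace G] [TopologicalSpace T] [CompactSpace T]
  [MulAction G T] [ContinuousSMul G T]

theorem exists_clopen [CompactSpace G] [T2Space T] [TotallyDisconnectedSpace T] (t₀ : T) (O : Subgroup G) (hO : IsOpen (O : Set G))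
    (hst : MulAction.stabilizer G t₀ ≤ O) (W : Set T) (hW : IsOpen W) (hW0 : t₀ ∈ W) :
    ∃ V : Set T, IsClopen V ∧ t₀ ∈ V ∧ V ⊆ W ∧ ∀ g : G, ∀ t ∈ V, g • t ∈ V → g ∈ O := by
  have hopen : IsOpen {x : G × (T × T) | x.1 • x.2.1 ≠ x.2.2} := by
    apply isOpen_ne_fun
    · exact continuous_fst.smul (continuous_fst.comp continuous_snd)
    · exact continuous_snd.comp continuous_snd
  have hcomp : IsCompact ((O : Set G)ᶜ) := hO.isClosed_compl.isCompact
  have hsub : ((O : Set G)ᶜ) ×ˢ ({(t₀, t₀)} : Set (T × T)) ⊆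
      {x : G × (T × T) | x.1 • x.2.1 ≠ x.2.2} := by
    rintro ⟨g, t, t'⟩ ⟨hg, ht⟩
    simp only [Set.mem_singleton_iff, Prod.mk.injEq] at ht
    obtain ⟨rfl, rfl⟩ := ht
    intro h
    exact hg (hst h)
  obtain ⟨u, v, hu, hv, hKu, htv, huv⟩ := generalized_tube_lemma hcomp isCompact_singleton
    hopen hsub
  have htv' : (t₀, t₀) ∈ v := htv rfl
  obtain ⟨v₁, v₂, hv₁, hv₂, ht₁, ht₂, hv12⟩ := isOpen_prod_iff.mp hv t₀ t₀ htv'
  obtain ⟨V, hVc, hV0, hVsub⟩ := compact_exists_isClopen_in_isOpen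
    ((hv₁.inter hv₂).inter hW) ⟨⟨ht₁, ht₂⟩, hW0⟩
  refine ⟨V, hVc, hV0, fun t ht => (hVsub ht).2, ?_⟩
  intro g t ht hgt
  by_contra hg
  have h1 : (g, (t, g • t)) ∈ u ×ˢ v :=
    ⟨hKu hg, hv12 ⟨(hVsub ht).1.1, (hVsub hgt).1.2⟩⟩
  exact huv h1 rfl

theorem exists_nhds (V : Set T) (hV : IsClopen V) :
    ∃ N : Set G, IsOpen N ∧ (1 : G) ∈ N ∧ ∀ n ∈ N, ∀ t : T, n • t ∈ V ↔ t ∈ V := by
  have hcont : Continuous fun x : G × T => x.1 • x.2 := continuous_smul
  have h1 : IsClopen {x : G × T | x.1 • x.2 ∈ V} := hV.preimage hcont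
  have h2 : IsClopen {x : G × T | x.2 ∈ V} := hV.preimage continuous_snd
  have hopen : IsOpen {x : G × T | x.1 • x.2 ∈ V ↔ x.2 ∈ V} := by
    have : {x : G × T | x.1 • x.2 ∈ V ↔ x.2 ∈ V} =
        ({x : G × T | x.1 • x.2 ∈ V} ∩ {x : G × T | x.2 ∈ V}) ∪
        ({x : G × T | x.1 • x.2 ∈ V}ᶜ ∩ {x : G × T | x.2 ∈ V}ᶜ) := by
      ext x
      simp only [Set.mem_ofPred_eq, Set.mem_union, Set.mem_inter_iff, Set.mem_compl_iff]
      tauto
    rw [this]
    exact (h1.isOpen.inter h2.isOpen).union (h1.compl.isOpen.inter h2.compl.isOpen)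
  have hsub : ({1} : Set G) ×ˢ (Set.univ : Set T) ⊆ {x : G × T | x.1 • x.2 ∈ V ↔ x.2 ∈ V} := by
    rintro ⟨g, t⟩ ⟨hg, -⟩
    have : g = 1 := hg
    subst this
    change (1 : G) • t ∈ V ↔ t ∈ V
    rw [one_smul]
  obtain ⟨u, v, hu, hv, h1u, huv, hs⟩ := generalized_tube_lemma isCompact_singleton
    isCompact_univ hopen hsub
  refine ⟨u, hu, h1u rfl, fun n hn t => ?_⟩
  exact hs (show (n, t) ∈ u ×ˢ v from ⟨hn, huv (Set.mem_univ t)⟩)

end Top

section Phi

variable {G T : Type*} [Group G] [MulAction G T] {Q : Type*} [Group Q]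
  (π : G →* Q) (R₀ : Subgroup Q) (V : Set T)

open Classical in
/-- The map of a space to the union of two orbits, given by a set `V`. -/
noncomputable def phiPt : T → TwoOrbits R₀ (⊤ : Subgroup Q) := fun t =>
  if h : ∃ g : G, g • t ∈ V then Sum.inl (QuotientGroup.mk (π h.choose)⁻¹)
  else Sum.inr (QuotientGroup.mk 1)

variable {π R₀ V}

theorem phiPt_of_mem (hVO : ∀ g : G, ∀ t ∈ V, g • t ∈ V → π g ∈ R₀) {t : T} {g : G}
    (h : g • t ∈ V) : phiPt π R₀ V t = Sum.inl (QuotientGroup.mk (π g)⁻¹) := by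
  have hex : ∃ g : G, g • t ∈ V := ⟨g, h⟩
  rw [phiPt, dif_pos hex]
  congr 1
  rw [QuotientGroup.eq, inv_inv, ← map_inv, ← map_mul]
  apply hVO _ (g • t) h
  rw [smul_smul, inv_mul_cancel_right]
  exact hex.choose_spec

theorem phiPt_of_not {t : T} (h : ∀ g : G, g • t ∉ V) :
    phiPt π R₀ V t = Sum.inr (QuotientGroup.mk 1) := by
  rw [phiPt, dif_neg]
  rintro ⟨g, hg⟩
  exact h g hg

variable [TopologicalSpace G] [TopologicalSpace T] [ContinuousSMul G T] [Finite Q]
  [TopologicalSpace Q] [DiscreteTopology Q]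

theorem isOpen_translate (hV : IsClopen V) (g : G) : IsClopen {t : T | g • t ∈ V} :=
  hV.preimage (continuous_const_smul g)

theorem continuous_phiPt (hsurj : Function.Surjective π) (hV : IsClopen V)
    (hVker : ∀ n : G, π n = 1 → ∀ t : T, n • t ∈ V ↔ t ∈ V)
    (hVO : ∀ g : G, ∀ t ∈ V, g • t ∈ V → π g ∈ R₀) :
    Continuous (phiPt π R₀ V : T → TwoOrbits R₀ (⊤ : Subgroup Q)) := by
  have hd := discrete_two R₀ (⊤ : Subgroup Q)
  rw [continuous_discrete_rng]
  intro x
  rcases x with (q | q)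
  · obtain ⟨c, rfl⟩ := QuotientGroup.mk_surjective q
    have : (phiPt π R₀ V ⁻¹' {Sum.inl (QuotientGroup.mk c)} : Set T) =
        ⋃ g : {g : G // (QuotientGroup.mk (π g)⁻¹ : Q ⧸ R₀) = QuotientGroup.mk c},
          {t : T | (g : G) • t ∈ V} := by
      ext t
      simp only [Set.mem_preimage, Set.mem_singleton_iff, Set.mem_iUnion, Set.mem_ofPred_eq,
        Subtype.exists, exists_prop]
      constructor
      · intro h
        by_cases hex : ∃ g : G, g • t ∈ V
        · obtain ⟨g, hg⟩ := hex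
          rw [phiPt_of_mem hVO hg] at h
          exact ⟨g, Sum.inl_injective h, hg⟩
        · push Not at hex
          rw [phiPt_of_not hex] at h
          cases h
      · rintro ⟨g, hg1, hg2⟩
        rw [phiPt_of_mem hVO hg2, hg1]
    rw [this]
    exact isOpen_iUnion fun g => (isOpen_translate hV _).isOpen
  · have : (phiPt π R₀ V ⁻¹' {Sum.inr q} : Set T) =
        ⋂ c : Q, {t : T | (Function.surjInv hsurj c) • t ∈ V}ᶜ := by
      ext t
      simp only [Set.mem_preimage, Set.mem_singleton_iff, Set.mem_iInter, Set.mem_compl_iff,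
        Set.mem_ofPred_eq]
      constructor
      · intro h c hc
        rw [phiPt_of_mem hVO hc] at h
        cases h
      · intro h
        have h' : ∀ g : G, g • t ∉ V := by
          intro g hg
          apply h (π g)
          have h1 : π (Function.surjInv hsurj (π g) * g⁻¹) = 1 := by
            rw [map_mul, map_inv, Function.surjInv_eq hsurj, mul_inv_cancel]
          have h2 := (hVker _ h1 (g • t)).mpr hg
          rwa [smul_smul, inv_mul_cancel_right] at h2
        rw [phiPt_of_not h']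
        congr 1
        obtain ⟨c, rfl⟩ := QuotientGroup.mk_surjective q
        rw [QuotientGroup.eq]
        exact Subgroup.mem_top _
    rw [this]
    exact isOpen_iInter_of_finite fun c => (isOpen_translate hV _).compl.isOpen

/-- The morphism from a pile to a finite pile with two orbits. -/
noncomputable def phi (hπ : Continuous π) (hsurj : Function.Surjective π) (hV : IsClopen V)
    (hVker : ∀ n : G, π n = 1 → ∀ t : T, n • t ∈ V ↔ t ∈ V)
    (hVO : ∀ g : G, ∀ t ∈ V, g • t ∈ V → π g ∈ R₀) :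
    PileHom G T Q (TwoOrbits R₀ (⊤ : Subgroup Q)) where
  grp := π
  pt := phiPt π R₀ V
  continuous_grp := hπ
  continuous_pt := continuous_phiPt hsurj hV hVker hVO
  map_smul := by
    intro h t
    by_cases hex : ∃ g : G, g • t ∈ V
    · obtain ⟨g, hg⟩ := hex
      have hg' : (g * h⁻¹) • (h • t) ∈ V := by
        rwa [smul_smul, inv_mul_cancel_right]
      rw [phiPt_of_mem hVO hg, phiPt_of_mem hVO hg']
      change _ = Sum.inl (QuotientGroup.mk (π h * (π g)⁻¹))
      rw [map_mul, map_inv, mul_inv_rev, inv_inv]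
    · push Not at hex
      have hex' : ∀ g : G, g • (h • t) ∉ V := by
        intro g
        rw [smul_smul]
        exact hex _
      rw [phiPt_of_not hex, phiPt_of_not hex']
      change _ = Sum.inr (QuotientGroup.mk (π h * 1))
      congr 1
      rw [QuotientGroup.eq]
      exact Subgroup.mem_top _

end Phi

section Embedding

variable {G T : Type*} [Group G] [TopologicalSpace G] [TopologicalSpace T]
  [MulAction G T] [ContinuousSMul G T]
  {Q : Type} [Group Q] [Finite Q] [TopologicalSpace Q] [DiscreteTopology Q]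
  {B : Type} [Group B] [Finite B] [TopologicalSpace B] [DiscreteTopology B]

/-- Conjugation by an element maps a homomorphism to another one. -/
def conjHom {G B : Type*} [Group G] [Group B] (γ : G →* B) (b : B) : G →* B where
  toFun x := b⁻¹ * γ x * b
  map_one' := by simp
  map_mul' x y := by rw [map_mul]; group

theorem solve (hproj : IsProjectivePile G T) {π : G →* Q} {R₀ : Subgroup Q} {V : Set T}
    (hπ : Continuous π) (hsurj : Function.Surjective π) (hV : IsClopen V)
    (hVker : ∀ n : G, π n = 1 → ∀ t : T, n • t ∈ V ↔ t ∈ V)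
    (hVO : ∀ g : G, ∀ t ∈ V, g • t ∈ V → π g ∈ R₀)
    {α : B →* Q} (hα : Function.Surjective α) {S₀ S₁ : Subgroup B}
    (h₀ : Set.BijOn α S₀ R₀) (h₁ : Set.BijOn α S₁ (⊤ : Subgroup Q))
    {t₀ : T} (ht₀ : t₀ ∈ V) :
    ∃ γ : G →* B, (∀ x, α (γ x) = π x) ∧
      (∀ x ∈ MulAction.stabilizer G t₀, γ x ∈ S₀) ∧
      ∀ t : T, (∀ g : G, g • t ∉ V) → ∃ b : B, ∀ x ∈ MulAction.stabilizer G t,
        b⁻¹ * γ x * b ∈ S₁ := by
  have hd1 := discrete_two S₀ S₁
  have hd2 := discrete_two R₀ (⊤ : Subgroup Q)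
  have hf1 : Finite (TwoOrbits S₀ S₁) := inferInstance
  have hf2 : Finite (TwoOrbits R₀ (⊤ : Subgroup Q)) := inferInstance
  obtain ⟨γ, hγ1, hγ2⟩ := hproj Q (TwoOrbits R₀ (⊤ : Subgroup Q)) B (TwoOrbits S₀ S₁)
    (phi hπ hsurj hV hVker hVO) (twoHom α h₀ h₁) (twoHom_isEpi α h₀ h₁ hα)
    (twoHom_isRigid α h₀ h₁ hα)
  have key : ∀ (t : T) (x : G), x ∈ MulAction.stabilizer G t →
      γ.grp x ∈ MulAction.stabilizer B (γ.pt t) := by
    intro t x hx
    rw [MulAction.mem_stabilizer_iff] at hx ⊢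
    rw [← γ.map_smul, hx]
  have e0 : (twoHom α h₀ h₁).pt (γ.pt t₀) = Sum.inl (QuotientGroup.mk 1) := by
    rw [hγ2]
    have : (1 : G) • t₀ ∈ V := by rwa [one_smul]
    change phiPt π R₀ V t₀ = _
    rw [phiPt_of_mem hVO this, map_one, inv_one]
  obtain ⟨b, hb, hbt⟩ : ∃ b : B, α b = 1 ∧ γ.pt t₀ = Sum.inl (QuotientGroup.mk b) := by
    generalize γ.pt t₀ = y at e0
    rcases y with (q | q)
    · obtain ⟨b, rfl⟩ := QuotientGroup.mk_surjective q
      have e1 : (QuotientGroup.mk (α b) : Q ⧸ R₀) = QuotientGroup.mk 1 := Sum.inl_injective e0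
      have e2 : α b ∈ R₀ := by
        have := QuotientGroup.eq.mp e1.symm
        simpa using this
      obtain ⟨s, hs, hsb⟩ := h₀.surjOn e2
      refine ⟨b * s⁻¹, ?_, ?_⟩
      · rw [map_mul, map_inv, hsb, mul_inv_cancel]
      · congr 1
        rw [QuotientGroup.eq]
        have : b⁻¹ * (b * s⁻¹) = s⁻¹ := by group
        rw [this]
        exact S₀.inv_mem hs
    · exact absurd e0 (by intro h; cases h)
  refine ⟨conjHom γ.grp b, ?_, ?_, ?_⟩
  · intro x
    change α (b⁻¹ * γ.grp x * b) = π x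
    have e : α (γ.grp x) = π x := hγ1 x
    rw [map_mul, map_mul, map_inv, hb, e]
    simp
  · intro x hx
    have := key t₀ x hx
    rw [hbt, sum_stabilizer_inl, mem_stabilizer_coset] at this
    exact this
  · intro t ht
    have e1 : (twoHom α h₀ h₁).pt (γ.pt t) = Sum.inr (QuotientGroup.mk 1) := by
      rw [hγ2]
      exact phiPt_of_not ht
    obtain ⟨c, hc⟩ : ∃ c : B, γ.pt t = Sum.inr (QuotientGroup.mk c) := by
      generalize γ.pt t = y at e1
      rcases y with (q | q)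
      · exact absurd e1 (by intro h; cases h)
      · obtain ⟨c, rfl⟩ := QuotientGroup.mk_surjective q
        exact ⟨c, rfl⟩
    refine ⟨b⁻¹ * c, fun x hx => ?_⟩
    have := key t x hx
    rw [hc, sum_stabilizer_inr, mem_stabilizer_coset] at this
    change (b⁻¹ * c)⁻¹ * (b⁻¹ * γ.grp x * b) * (b⁻¹ * c) ∈ S₁
    have e : (b⁻¹ * c)⁻¹ * (b⁻¹ * γ.grp x * b) * (b⁻¹ * c) = c⁻¹ * γ.grp x * c := by group
    rw [e]
    exact this

end Embedding

end Pool.Agent.Lib.MP_f46d86_al
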