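import Mathlib
import Pool.Agent.Lib.MP_f46d86_al.Setup

/-!
# The embedding problem given by an augmentation-type module
-/

set_option autoImplicit false

namespace Pool.Agent.Lib.MP_f46d86_al

section Semi

variable (k Q : Type) [AddCommGroup k] [Group Q]

/-- The left action of a group on the functions on it by right translations. -/
def actFun : Q →* MulAut (Multiplicative (Q → k)) where
  toFun a :=
    { toFun := fun f => Multiplicative.ofAdd fun v => Multiplicative.toAdd f (v * a)
      invFun := fun f => Multiplicative.ofAdd fun v => Multiplicative.toAdd f (v * a⁻¹)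
      left_inv := fun f => by
        apply Multiplicative.toAdd.injective
        funext v
        change Multiplicative.toAdd f (v * a⁻¹ * a) = Multiplicative.toAdd f v
        rw [inv_mul_cancel_right]
      right_inv := fun f => by
        apply Multiplicative.toAdd.injective
        funext v
        change Multiplicative.toAdd f (v * a * a⁻¹) = Multiplicative.toAdd f v
        rw [mul_inv_cancel_right]
      map_mul' := fun _ _ => rfl }
  map_one' := by
    apply MulEquiv.ext
    intro f
    apply Multiplicative.toAdd.injective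
    funext v
    change Multiplicative.toAdd f (v * 1) = Multiplicative.toAdd f v
    rw [mul_one]
  map_mul' a b := by
    apply MulEquiv.ext
    intro f
    apply Multiplicative.toAdd.injective
    funext v
    change Multiplicative.toAdd f (v * (a * b)) = Multiplicative.toAdd f (v * a * b)
    rw [mul_assoc]

/-- The semidirect product of the functions and the group. -/
abbrev Big : Type := Multiplicative (Q → k) ⋊[actFun k Q] Q

variable {k Q}

/-- The function part of an element. -/
def Big.fn (x : Big k Q) : Q → k := Multiplicative.toAdd x.left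

theorem Big.ext' {x y : Big k Q} (h1 : x.fn = y.fn) (h2 : x.right = y.right) : x = y :=
  SemidirectProduct.ext h1 h2

theorem Big.fn_one (v : Q) : (1 : Big k Q).fn v = 0 := rfl

theorem Big.fn_mul (x y : Big k Q) (v : Q) : (x * y).fn v = x.fn v + y.fn (v * x.right) := rfl

theorem Big.fn_inv (x : Big k Q) (v : Q) : (x⁻¹).fn v = - x.fn (v * x.right⁻¹) := rfl

variable [Fintype Q] [DecidableEq Q] {R : Type} [Group R] (ρ : Q →* R) (P : Subgroup R)
  [DecidablePred (· ∈ P)]

variable (k) in
/-- The subgroup of the elements whose function part has zero sums over cosets. -/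
def smallB : Subgroup (Big k Q) where
  carrier := {x | ∀ w : R, ∑ v : Q, (if ρ v * w ∈ P then x.fn v else 0) = 0}
  one_mem' := by
    intro w
    apply Finset.sum_eq_zero
    intro v _
    rw [Big.fn_one]
    split_ifs <;> rfl
  mul_mem' := by
    intro x y hx hy w
    have e1 : ∀ v, (if ρ v * w ∈ P then (x * y).fn v else 0) =
        (if ρ v * w ∈ P then x.fn v else 0) +
        (if ρ v * w ∈ P then y.fn (v * x.right) else 0) := by
      intro v
      rw [Big.fn_mul]
      split_ifs
      · rfl
      · rw [add_zero]
    simp only [e1]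
    rw [Finset.sum_add_distrib, hx w, zero_add]
    refine Eq.trans ?_ (hy (ρ x.right⁻¹ * w))
    apply Fintype.sum_equiv (Equiv.mulRight x.right)
    intro v
    have e2 : ρ (v * x.right) * (ρ x.right⁻¹ * w) = ρ v * w := by
      rw [map_mul, map_inv]; group
    simp only [Equiv.coe_mulRight, e2]
  inv_mem' := by
    intro x hx w
    have := hx (ρ x.right * w)
    have h2 : -(∑ v : Q, (if ρ v * (ρ x.right * w) ∈ P then x.fn v else 0)) = 0 := by
      rw [this, neg_zero]
    refine Eq.trans ?_ h2
    rw [← Finset.sum_neg_distrib]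
    apply Fintype.sum_equiv (Equiv.mulRight x.right⁻¹)
    intro v
    have e2 : ρ (v * x.right⁻¹) * (ρ x.right * w) = ρ v * w := by
      rw [map_mul, map_inv]; group
    simp only [Equiv.coe_mulRight, e2]
    rw [Big.fn_inv]
    split_ifs
    · rfl
    · rw [neg_zero]

/-- The projection. -/
def smallα : smallB k ρ P →* Q := SemidirectProduct.rightHom.comp (smallB k ρ P).subtype

theorem smallα_apply (x : smallB k ρ P) : smallα ρ P x = (x : Big k Q).right := rfl

theorem smallα_surjective : Function.Surjective (smallα (k := k) ρ P) := by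
  intro a
  refine ⟨⟨SemidirectProduct.inr a, ?_⟩, rfl⟩
  intro w
  apply Finset.sum_eq_zero
  intro v _
  have : Big.fn (SemidirectProduct.inr a : Big k Q) v = 0 := rfl
  rw [this]
  split_ifs <;> rfl

/-- The elements with zero function part. -/
def smallS₁ : Subgroup (smallB k ρ P) where
  carrier := {x | ∀ v, Big.fn (x : Big k Q) v = 0}
  one_mem' := fun _ => rfl
  mul_mem' := by
    intro x y hx hy v
    change (x : Big k Q).fn v + (y : Big k Q).fn (v * (x : Big k Q).right) = 0
    rw [hx, hy, add_zero]
  inv_mem' := by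
    intro x hx v
    change - (x : Big k Q).fn (v * (x : Big k Q).right⁻¹) = 0
    rw [hx, neg_zero]

/-- The twisted complement. -/
def smallS₀ (e : Q → k) : Subgroup (smallB k ρ P) where
  carrier := {x | ρ (x : Big k Q).right ∈ P ∧
    ∀ v, Big.fn (x : Big k Q) v = e v - e (v * (x : Big k Q).right)}
  one_mem' := by
    refine ⟨?_, ?_⟩
    · change ρ 1 ∈ P
      rw [map_one]; exact P.one_mem
    · intro v
      change (0 : k) = e v - e (v * 1)
      rw [mul_one, sub_self]
  mul_mem' := by
    intro x y hx hy
    refine ⟨?_, ?_⟩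
    · change ρ ((x : Big k Q).right * (y : Big k Q).right) ∈ P
      rw [map_mul]; exact P.mul_mem hx.1 hy.1
    · intro v
      change (x : Big k Q).fn v + (y : Big k Q).fn (v * (x : Big k Q).right) =
        e v - e (v * ((x : Big k Q).right * (y : Big k Q).right))
      rw [hx.2, hy.2, mul_assoc]
      abel
  inv_mem' := by
    intro x hx
    refine ⟨?_, ?_⟩
    · change ρ ((x : Big k Q).right⁻¹) ∈ P
      rw [map_inv]; exact P.inv_mem hx.1
    · intro v
      change - (x : Big k Q).fn (v * (x : Big k Q).right⁻¹) =
        e v - e (v * (x : Big k Q).right⁻¹)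
      rw [hx.2, inv_mul_cancel_right]
      abel

theorem bijOn_S₁ : Set.BijOn (smallα (k := k) ρ P) (smallS₁ (k := k) ρ P : Set (smallB k ρ P))
    (⊤ : Subgroup Q) := by
  refine ⟨fun _ _ => Set.mem_univ _, ?_, ?_⟩
  · intro x hx y hy hxy
    apply Subtype.ext
    apply Big.ext'
    · funext v
      rw [hx v, hy v]
    · exact hxy
  · intro a _
    have hmem : (SemidirectProduct.inr a : Big k Q) ∈ smallB k ρ P := by
      intro w
      apply Finset.sum_eq_zero
      intro v _
      have : Big.fn (SemidirectProduct.inr a : Big k Q) v = 0 := rfl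
      rw [this]
      split_ifs <;> rfl
    exact ⟨⟨SemidirectProduct.inr a, hmem⟩, fun _ => rfl, rfl⟩

theorem sum_shift (c : k) (a : Q) (w : R) :
    ∑ v : Q, (if ρ v * w ∈ P then (if v * a = 1 then c else 0) else 0) =
      if ρ a⁻¹ * w ∈ P then c else 0 := by
  rw [Finset.sum_eq_single a⁻¹]
  · rw [inv_mul_cancel, if_pos rfl]
  · intro v _ hv
    have : ¬ v * a = 1 := fun h => hv (eq_inv_of_mul_eq_one_left h)
    rw [if_neg this]
    split_ifs <;> rfl
  · intro h; exact absurd (Finset.mem_univ _) h

theorem bijOn_S₀ (c : k) : Set.BijOn (smallα (k := k) ρ P)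
    (smallS₀ ρ P fun v => if v = 1 then c else 0) (P.comap ρ) := by
  refine ⟨fun x hx => hx.1, ?_, ?_⟩
  · intro x hx y hy hxy
    apply Subtype.ext
    have hr : (x : Big k Q).right = (y : Big k Q).right := hxy
    apply Big.ext'
    · funext v
      rw [hx.2 v, hy.2 v, hr]
    · exact hr
  · intro a ha
    have ha' : ρ a ∈ P := ha
    have hmem : (⟨Multiplicative.ofAdd fun v => (if v = 1 then c else 0) -
        (if v * a = 1 then c else 0), a⟩ : Big k Q) ∈ smallB k ρ P := by
      intro w
      have e1 : ∀ v, (if ρ v * w ∈ P then Big.fn (⟨Multiplicative.ofAdd fun v =>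
          (if v = 1 then c else 0) - (if v * a = 1 then c else 0), a⟩ : Big k Q) v else 0) =
          (if ρ v * w ∈ P then (if v * 1 = 1 then c else 0) else 0) -
          (if ρ v * w ∈ P then (if v * a = 1 then c else 0) else 0) := by
        intro v
        rw [mul_one]
        change (if ρ v * w ∈ P then (if v = 1 then c else 0) - (if v * a = 1 then c else 0) else 0)
          = _
        split_ifs <;> simp
      simp only [e1]
      rw [Finset.sum_sub_distrib, sum_shift ρ P c 1 w, sum_shift ρ P c a w, inv_one, map_one,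
        one_mul, map_inv]
      have : (ρ a)⁻¹ * w ∈ P ↔ w ∈ P := P.mul_mem_cancel_left (P.inv_mem ha')
      simp only [this, sub_self]
    exact ⟨⟨_, hmem⟩, ⟨ha', fun v => rfl⟩, rfl⟩

end Semi

section Delta

variable {G T : Type*} [Group G] [TopologicalSpace G] [TopologicalSpace T]
  [MulAction G T] [ContinuousSMul G T]
  {Q : Type} [Group Q] [TopologicalSpace Q] [DiscreteTopology Q]

theorem exists_delta (hproj : IsProjectivePile G T) {π : G →* Q} {V : Set T}
    {R : Type} [Group R] (ρ : Q →* R) (P : Subgroup R)
    (hπ : Continuous π) (hsurj : Function.Surjective π) (hV : IsClopen V)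
    (hVker : ∀ n : G, π n = 1 → ∀ t : T, n • t ∈ V ↔ t ∈ V)
    (hVO : ∀ g : G, ∀ t ∈ V, g • t ∈ V → ρ (π g) ∈ P) {t₀ : T} (ht₀ : t₀ ∈ V)
    (k : Type) [AddCommGroup k] [Finite k] (c : k) [Fintype Q] [DecidableEq Q]
    [DecidablePred (· ∈ P)] :
    ∃ δ : G → Q → k, (∀ x y v, δ (x * y) v = δ x v + δ y (v * π x)) ∧
      (∀ x ∈ MulAction.stabilizer G t₀, ∀ v, δ x v = 0) ∧
      ∀ x : G, ∑ v : Q, (if ρ v ∈ P then δ x v else 0) = if ρ (π x) ∈ P then 0 else - c := by
  have hfin : Finite (Big k Q) := by
    have : Function.Injective (fun x : Big k Q => (x.fn, x.right)) := by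
      intro x y hxy
      simp only [Prod.mk.injEq] at hxy
      exact Big.ext' hxy.1 hxy.2
    exact Finite.of_injective _ this
  let tB : TopologicalSpace (smallB k ρ P) := ⊥
  have hB : DiscreteTopology (smallB k ρ P) := ⟨rfl⟩
  obtain ⟨γ, h1, h2, -⟩ := solve hproj (R₀ := P.comap ρ) hπ hsurj hV hVker hVO
    (smallα_surjective (k := k) ρ P) (bijOn_S₀ ρ P c) (bijOn_S₁ ρ P) ht₀
  have h1' : ∀ x, (γ x : Big k Q).right = π x := h1
  refine ⟨fun x v => (γ x : Big k Q).fn v + (if v * π x = 1 then c else 0) -
    (if v = 1 then c else 0), ?_, ?_, ?_⟩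
  · intro x y v
    simp only
    rw [map_mul, map_mul]
    have : ((γ x * γ y : smallB k ρ P) : Big k Q).fn v =
        (γ x : Big k Q).fn v + (γ y : Big k Q).fn (v * π x) := by
      rw [← h1' x]; rfl
    rw [this, mul_assoc]
    abel
  · intro x hx v
    have := (h2 x hx).2 v
    simp only at this ⊢
    rw [this, h1' x]
    abel
  · intro x
    have e0 : (∑ v : Q, (if ρ v ∈ P then ((γ x : Big k Q).fn v + (if v * π x = 1 then c else 0) -
        (if v = 1 then c else 0)) else 0)) =
        (∑ v : Q, (if ρ v * 1 ∈ P then (γ x : Big k Q).fn v else 0)) +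
        (∑ v : Q, (if ρ v * 1 ∈ P then (if v * π x = 1 then c else 0) else 0)) -
        (∑ v : Q, (if ρ v * 1 ∈ P then (if v * 1 = 1 then c else 0) else 0)) := by
      rw [← Finset.sum_add_distrib, ← Finset.sum_sub_distrib]
      refine Finset.sum_congr rfl fun v _ => ?_
      rw [mul_one, mul_one]
      split_ifs <;> simp
    have e1 : (∑ v : Q, (if ρ v * 1 ∈ P then (γ x : Big k Q).fn v else 0)) = 0 := (γ x).2 1
    rw [e0, e1, sum_shift ρ P c (π x) 1, sum_shift ρ P c 1 1, zero_add, mul_one, mul_one, inv_one,
      map_one, if_pos P.one_mem, map_inv]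
    by_cases h : ρ (π x) ∈ P
    · rw [if_pos h, if_pos (P.inv_mem h), sub_self]
    · rw [if_neg h, if_neg (fun h' => h (by simpa using P.inv_mem h')), zero_sub]

end Delta

end Pool.Agent.Lib.MP_f46d86_al
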