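import Mathlib
import Pool.Agent.Lib.MP_f46d86_al.Hat
import Pool.Agent.Lib.MP_f46d86_al.Semi
import Pool.Agent.Lib.MP_f46d86_al.Fox

/-!
# Elements of point stabilisers lie in proper free factors
-/

set_option autoImplicit false

namespace Pool.Agent.Lib.MP_f46d86_al

section

variable {α : Type}

/-- The sum of the coefficients over a subset. -/
def sumOver {R : Type} [Group R] [Fintype R] (P : Subgroup R) [DecidablePred (· ∈ P)]
    (k : Type) [Field k] : MonoidAlgebra k R →+ k where
  toFun x := ∑ w : R, if w ∈ P then x.coeff w else 0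
  map_zero' := by
    apply Finset.sum_eq_zero
    intro w _
    split_ifs <;> simp
  map_add' x y := by
    rw [← Finset.sum_add_distrib]
    refine Finset.sum_congr rfl fun w _ => ?_
    split_ifs <;> simp

theorem sumOver_single {R : Type} [Group R] [Fintype R] (P : Subgroup R)
    [DecidablePred (· ∈ P)] (k : Type) [Field k] (w : R) (c : k) :
    sumOver P k (MonoidAlgebra.single w c) = if w ∈ P then c else 0 := by
  classical
  change (∑ v : R, if v ∈ P then (MonoidAlgebra.single w c).coeff v else 0) = _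
  rw [Finset.sum_eq_single w]
  · simp
  · intro v _ hv
    have : (MonoidAlgebra.single w c).coeff v = 0 := by
      rw [MonoidAlgebra.coeff_single, Finsupp.single_apply, if_neg (Ne.symm hv)]
    rw [this]
    split_ifs <;> rfl
  · intro h; exact absurd (Finset.mem_univ _) h

theorem push_single {k : Type} [Field k] {U' U : Subgroup (FreeGroup α)} [U'.Normal] [U.Normal]
    (h : U' ≤ U) (v : FreeGroup α ⧸ U') (c : k) :
    push k h (MonoidAlgebra.single v c) =
      MonoidAlgebra.single (QuotientGroup.map U' U (MonoidHom.id _) h v) c := by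
  rw [push, MonoidAlgebra.mapDomainAlgHom_apply, MonoidAlgebra.mapDomain_single]

/-- **Theorem A.** -/
theorem mainA [Finite α] {T : Type*} [TopologicalSpace T] [CompactSpace T] [T2Space T]
    [TotallyDisconnectedSpace T] [MulAction (Hat α) T] [ContinuousSMul (Hat α) T]
    (hproj : IsProjectivePile (Hat α) T) (g : FreeGroup α) (t₀ : T)
    (hg : etaHom α g ∈ MulAction.stabilizer (Hat α) t₀)
    (hne : MulAction.stabilizer (Hat α) t₀ ≠ ⊤) : InProperFreeFactor g := by
  classical
  have hclosed : IsClosed (MulAction.stabilizer (Hat α) t₀ : Set (Hat α)) := by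
    have : (MulAction.stabilizer (Hat α) t₀ : Set (Hat α)) = (fun x : Hat α => x • t₀) ⁻¹' {t₀} := by
      ext x
      rfl
    rw [this]
    exact isClosed_singleton.preimage (continuous_id.smul continuous_const)
  obtain ⟨U, hUn, hUf, hU⟩ := exists_proper _ hclosed hne
  set H := MulAction.stabilizer (Hat α) t₀ with hH
  set P := H.map (ev U) with hP
  rcases dichotomy (k := ZMod 2) g U with hcut | ⟨U', hU'n, hle, hU'f, hU'⟩
  · exact inProperFreeFactor_of_hasCut hcut
  exfalso
  -- the open subgroup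
  have hO : IsOpen ((P.comap (ev U) : Subgroup (Hat α)) : Set (Hat α)) :=
    isOpen_preimage_ev U (P : Set (FreeGroup α ⧸ U))
  obtain ⟨V, hV, ht₀, -, hVO⟩ := exists_clopen t₀ (P.comap (ev U)) hO (by
    intro x hx
    exact Subgroup.mem_map_of_mem _ hx) Set.univ isOpen_univ (Set.mem_univ _)
  obtain ⟨N, hN, h1N, hNV⟩ := exists_nhds (G := Hat α) V hV
  obtain ⟨U₁, hU₁n, hU₁f, hU₁⟩ := exists_ev_subset N hN h1N
  have hnorm : (U' ⊓ U₁).Normal := inferInstance
  have hfi : (U' ⊓ U₁).FiniteIndex := inferInstance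
  have hle' : U' ⊓ U₁ ≤ U' := inf_le_left
  have hle₁ : U' ⊓ U₁ ≤ U₁ := inf_le_right
  have hle'' : U' ⊓ U₁ ≤ U := hle'.trans hle
  generalize hW : U' ⊓ U₁ = W at hnorm hfi hle' hle₁ hle''
  let _ : TopologicalSpace (FreeGroup α ⧸ W) := ⊥
  have : DiscreteTopology (FreeGroup α ⧸ W) := ⟨rfl⟩
  have := Fintype.ofFinite (FreeGroup α ⧸ W)
  have := Fintype.ofFinite (FreeGroup α ⧸ U)
  obtain ⟨δ, hδ1, hδ2, hδ3⟩ := exists_delta hproj (π := ev W) (V := V)
    (QuotientGroup.map W U (MonoidHom.id _) hle'') P (continuous_ev W) (ev_surjective W) hV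
    (fun n hn t => hNV n (hU₁ n (by rw [← map_ev hle₁, hn, map_one])) t)
    (fun x t ht hxt => by
      rw [map_ev hle'']
      exact hVO x t ht hxt) ht₀ (ZMod 2) 1
  -- the derivation
  let D₀ : FreeGroup α → MonoidAlgebra (ZMod 2) (FreeGroup α ⧸ W) := fun f =>
    ∑ v, MonoidAlgebra.single v (δ (etaHom α f⁻¹) v)
  let D : FreeGroup α → MonoidAlgebra (ZMod 2) (FreeGroup α ⧸ U') := fun f => push (ZMod 2) hle' (D₀ f)
  have hD₀ : ∀ x y, D₀ (x * y) = D₀ x * MonoidAlgebra.single (QuotientGroup.mk y) 1 + D₀ y := by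
    intro x y
    simp only [D₀]
    rw [Finset.sum_mul, add_comm, mul_inv_rev]
    have e1 : ∀ v, (MonoidAlgebra.single v (δ (etaHom α (y⁻¹ * x⁻¹)) v) :
        MonoidAlgebra (ZMod 2) (FreeGroup α ⧸ W)) =
        MonoidAlgebra.single v (δ (etaHom α y⁻¹) v) +
        MonoidAlgebra.single v (δ (etaHom α x⁻¹) (v * (QuotientGroup.mk y)⁻¹)) := by
      intro v
      rw [map_mul, hδ1, MonoidAlgebra.single_add, ev_eta]
      rfl
    simp only [e1]
    rw [Finset.sum_add_distrib]
    congr 1
    apply Fintype.sum_equiv (Equiv.mulRight (QuotientGroup.mk y : FreeGroup α ⧸ W)⁻¹)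
    intro v
    rw [MonoidAlgebra.single_mul_single, mul_one]
    simp
  have hD : IsRDer (quotOf (ZMod 2) U') D := by
    intro x y
    simp only [D]
    rw [hD₀, map_add, map_mul, push_single]
    rfl
  have hDg : D g = 0 := by
    have : D₀ g = 0 := by
      simp only [D₀]
      apply Finset.sum_eq_zero
      intro v _
      rw [hδ2 _ (by rw [map_inv]; exact inv_mem hg)]
      simp
    simp only [D]
    rw [this, map_zero]
  have hzero := hU' D hD hDg
  -- a point outside
  obtain ⟨q, hq⟩ : ∃ q : FreeGroup α ⧸ U, q ∉ P := by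
    by_contra hcon
    push Not at hcon
    exact hU (eq_top_iff.mpr fun x _ => hcon x)
  obtain ⟨f, rfl⟩ := QuotientGroup.mk_surjective q
  have h3 := hδ3 (etaHom α f)
  rw [map_ev hle'', ev_eta, if_neg hq] at h3
  have h4 : sumOver P (ZMod 2) (push (ZMod 2) hle (D f⁻¹)) = 0 := by
    rw [hzero, map_zero]
  have h5 : sumOver P (ZMod 2) (push (ZMod 2) hle (D f⁻¹)) = -1 := by
    rw [← h3]
    simp only [D, D₀]
    rw [map_sum, map_sum, map_sum]
    refine Finset.sum_congr rfl fun v _ => ?_
    rw [push_single, push_single, sumOver_single, inv_inv]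
    have e : QuotientGroup.map U' U (MonoidHom.id _) hle
        (QuotientGroup.map W U' (MonoidHom.id _) hle' v) =
        QuotientGroup.map W U (MonoidHom.id _) hle'' v := by
      obtain ⟨w, rfl⟩ := QuotientGroup.mk_surjective v
      rfl
    simp only [e]
  rw [h4] at h5
  exact absurd h5 (by decide)

end

end Pool.Agent.Lib.MP_f46d86_al
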