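import Mathlib
import Pool.Agent.Lib.MP_f46d86_al.Hat
import Pool.Agent.Lib.MP_f46d86_al.Setup

/-!
# A global fixed point forces the other stabilisers to be trivial
-/

set_option autoImplicit false

namespace Pool.Agent.Lib.MP_f46d86_al

variable {α : Type}

/-- The diagonal. -/
def diagS (Q : Type) [Group Q] : Subgroup (Q × Q) where
  carrier := {x | x.1 = x.2}
  one_mem' := rfl
  mul_mem' := by
    intro x y hx hy
    change x.1 * y.1 = x.2 * y.2
    rw [show x.1 = x.2 from hx, show y.1 = y.2 from hy]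
  inv_mem' := by
    intro x hx
    change x.1⁻¹ = x.2⁻¹
    rw [show x.1 = x.2 from hx]

/-- The second factor. -/
def sndS (Q : Type) [Group Q] : Subgroup (Q × Q) where
  carrier := {x | x.1 = 1}
  one_mem' := rfl
  mul_mem' := by
    intro x y hx hy
    change x.1 * y.1 = 1
    rw [show x.1 = 1 from hx, show y.1 = 1 from hy, mul_one]
  inv_mem' := by
    intro x hx
    change x.1⁻¹ = 1
    rw [show x.1 = 1 from hx, inv_one]

/-- **Theorem B.** -/
theorem mainB {T : Type*} [TopologicalSpace T] [CompactSpace T] [T2Space T]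
    [TotallyDisconnectedSpace T] [MulAction (Hat α) T] [ContinuousSMul (Hat α) T]
    (hproj : IsProjectivePile (Hat α) T) (t t' : T) (htt : t' ≠ t)
    (htop : MulAction.stabilizer (Hat α) t = ⊤) : MulAction.stabilizer (Hat α) t' = ⊥ := by
  rw [eq_bot_iff]
  intro x hx
  rw [Subgroup.mem_bot]
  by_contra hx1
  obtain ⟨V, hV, ht', hVt, -⟩ := exists_clopen (G := Hat α) t' (⊤ : Subgroup (Hat α)) isOpen_univ
    le_top {t}ᶜ isOpen_compl_singleton htt
  obtain ⟨N, hN, h1N, hNV⟩ := exists_nhds (G := Hat α) V hV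
  obtain ⟨U, hUn, hUf, hU⟩ := exists_ev_subset (N ∩ {x}ᶜ) (hN.inter isOpen_compl_singleton)
    ⟨h1N, fun h => hx1 (by simpa using h.symm)⟩
  let _ : TopologicalSpace (FreeGroup α ⧸ U) := ⊥
  have : DiscreteTopology (FreeGroup α ⧸ U) := ⟨rfl⟩
  let _ : TopologicalSpace ((FreeGroup α ⧸ U) × (FreeGroup α ⧸ U)) := ⊥
  have : DiscreteTopology ((FreeGroup α ⧸ U) × (FreeGroup α ⧸ U)) := ⟨rfl⟩
  obtain ⟨γ, h1, h2, h3⟩ := solve hproj (π := ev U) (R₀ := (⊤ : Subgroup (FreeGroup α ⧸ U)))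
    (V := V) (continuous_ev U) (ev_surjective U) hV (fun n hn s => hNV n (hU n hn).1 s)
    (fun _ _ _ _ => Subgroup.mem_top _)
    (α := MonoidHom.snd (FreeGroup α ⧸ U) (FreeGroup α ⧸ U)) (fun q => ⟨(1, q), rfl⟩)
    (S₀ := diagS _) (S₁ := sndS _)
    ⟨fun _ _ => Set.mem_univ _, fun a ha b hb hab => by
      have e1 : a.1 = a.2 := ha
      have e2 : b.1 = b.2 := hb
      have e3 : a.2 = b.2 := hab
      exact Prod.ext (by rw [e1, e2, e3]) e3, fun q _ => ⟨(q, q), rfl, rfl⟩⟩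
    ⟨fun _ _ => Set.mem_univ _, fun a ha b hb hab => by
      have e1 : a.1 = 1 := ha
      have e2 : b.1 = 1 := hb
      have e3 : a.2 = b.2 := hab
      exact Prod.ext (by rw [e1, e2]) e3, fun q _ => ⟨(1, q), rfl, rfl⟩⟩ ht'
  obtain ⟨b, hb⟩ := h3 t (fun g => by
    have : g ∈ MulAction.stabilizer (Hat α) t := by rw [htop]; trivial
    rw [MulAction.mem_stabilizer_iff] at this
    rw [this]
    exact fun h => hVt h rfl)
  have e1 : b.1⁻¹ * (γ x).1 * b.1 = 1 := hb x (by rw [htop]; trivial)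
  have e2 : (γ x).1 = 1 := by
    have : (γ x).1 = b.1 * (b.1⁻¹ * (γ x).1 * b.1) * b.1⁻¹ := by group
    rw [this, e1]; group
  have e3 : (γ x).1 = (γ x).2 := h2 x hx
  have e4 : (γ x).2 = ev U x := h1 x
  have e5 : ev U x = 1 := by rw [← e4, ← e3, e2]
  exact (hU x e5).2 rfl

end Pool.Agent.Lib.MP_f46d86_al
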